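import Mathlib

/-!
# Hypergraphs of diameter one: definitions

`nMax D r` is the largest number of vertices of a hypergraph of diameter 1 with maximum degree at
most `D` and edges of size at most `r`.  Some basic lemmas are those of
`Pool.Agent.Results.MP_530095_co.UniformAsymptotics`.
-/

namespace Pool.Agent.Helper99.NMax

open Finset

/-- `E` is the edge set of a `(Δ,1,r)`-hypergraph with vertex set `V`: the edges are nonempty, any
two distinct vertices lie in a common edge, every vertex lies in at most `Δ` edges, and every edge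
has at most `r` vertices. -/
structure IsDiamOne {V : Type} [Fintype V] [DecidableEq V] (Δ r : ℕ)
    (E : Finset (Finset V)) : Prop where
  nonempty : ∀ e ∈ E, e.Nonempty
  covers : ∀ x y : V, x ≠ y → ∃ e ∈ E, x ∈ e ∧ y ∈ e
  degree : ∀ x : V, (E.filter (fun e => x ∈ e)).card ≤ Δ
  rank : ∀ e ∈ E, e.card ≤ r

/-- There is a `(Δ,1,r)`-hypergraph with `n` vertices. -/
def Good (Δ r n : ℕ) : Prop := ∃ E : Finset (Finset (Fin n)), IsDiamOne Δ r E

/-- `n(Δ,1,r)`: the largest number of vertices of a `(Δ,1,r)`-hypergraph. -/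
noncomputable def nMax (Δ r : ℕ) : ℕ := sSup {n : ℕ | Good Δ r n}

/-- There is a projective plane of order `q`, that is, a `(q^2+q+1, q+1, 1)`-design: a family of
`(q+1)`-element subsets of a set of `q^2+q+1` points such that any two distinct points lie in
exactly one member (for `q = 1` the triangle). -/
def PlaneExists (q : ℕ) : Prop :=
  ∃ B : Finset (Finset (Fin (q ^ 2 + q + 1))), (∀ l ∈ B, l.card = q + 1) ∧
    ∀ x y, x ≠ y → ∃! l, l ∈ B ∧ x ∈ l ∧ y ∈ l

/-! ### Basic facts -/

/-- A family of sets (repetitions allowed) on a possibly larger vertex type yields a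
hypergraph. -/
lemma good_of_family {V ι : Type} [Fintype V] [DecidableEq V] [Fintype ι] {Δ r n : ℕ}
    (f : Fin n ↪ V) (e : ι → Finset V)
    (hcov : ∀ x y : V, x ≠ y → ∃ i, x ∈ e i ∧ y ∈ e i)
    (hdeg : ∀ x : V, (Finset.univ.filter (fun i => x ∈ e i)).card ≤ Δ)
    (hrank : ∀ i, (e i).card ≤ r) : Good Δ r n := by
  classical
  set g : ι → Finset (Fin n) := fun i => Finset.univ.filter (fun x : Fin n => f x ∈ e i) with hg
  refine ⟨(Finset.univ.image g).filter (fun s => s.Nonempty), ?_, ?_, ?_, ?_⟩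
  · intro s hs
    exact (Finset.mem_filter.1 hs).2
  · intro x y hxy
    obtain ⟨i, hx, hy⟩ := hcov (f x) (f y) (fun h => hxy (f.injective h))
    refine ⟨g i, ?_, ?_, ?_⟩
    · rw [Finset.mem_filter]
      refine ⟨Finset.mem_image_of_mem g (Finset.mem_univ i), ⟨x, ?_⟩⟩
      simp [hg, hx]
    · simp [hg, hx]
    · simp [hg, hy]
  · intro x
    refine le_trans ?_ (hdeg (f x))
    have hsub : ((Finset.univ.image g).filter (fun s => s.Nonempty)).filter (fun s => x ∈ s)
        ⊆ (Finset.univ.filter (fun i => f x ∈ e i)).image g := by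
      intro s hs
      rw [Finset.mem_filter, Finset.mem_filter, Finset.mem_image] at hs
      obtain ⟨⟨⟨i, _, rfl⟩, _⟩, hx⟩ := hs
      refine Finset.mem_image_of_mem g ?_
      simpa [hg] using hx
    exact le_trans (Finset.card_le_card hsub) Finset.card_image_le
  · intro s hs
    rw [Finset.mem_filter, Finset.mem_image] at hs
    obtain ⟨⟨i, _, rfl⟩, _⟩ := hs
    refine le_trans ?_ (hrank i)
    refine Finset.card_le_card_of_injOn f ?_ f.injective.injOn
    intro x hx
    simpa [hg] using hx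

lemma good_mono {Δ Δ' r r' n n' : ℕ} (h : Good Δ r n) (hΔ : Δ ≤ Δ') (hr : r ≤ r')
    (hn : n' ≤ n) : Good Δ' r' n' := by
  obtain ⟨E, hE⟩ := h
  refine good_of_family (V := Fin n) (ι := {e // e ∈ E}) (Fin.castLEEmb hn) (fun e => e.1) ?_ ?_ ?_
  · intro x y hxy
    obtain ⟨e, he, hx, hy⟩ := hE.covers x y hxy
    exact ⟨⟨e, he⟩, hx, hy⟩
  · intro x
    refine le_trans (le_trans ?_ (hE.degree x)) hΔ
    refine Finset.card_le_card_of_injOn (fun e => e.1) ?_ Subtype.val_injective.injOn
    intro e he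
    simp only [Finset.coe_filter, Finset.mem_univ, true_and, Set.mem_ofPred_eq] at he ⊢
    exact ⟨e.2, he⟩
  · intro e
    exact le_trans (hE.rank e.1 e.2) hr

lemma good_le {Δ r n : ℕ} (h : Good Δ r n) : n ≤ 1 + Δ * (r - 1) := by
  classical
  obtain ⟨E, hE⟩ := h
  rcases Nat.eq_zero_or_pos n with rfl | hn
  · omega
  let x : Fin n := ⟨0, hn⟩
  have hsub : (Finset.univ.erase x : Finset (Fin n)) ⊆
      (E.filter (fun e => x ∈ e)).biUnion (fun e => e.erase x) := by
    intro y hy
    obtain ⟨e, he, hx, hy'⟩ := hE.covers x y (Finset.ne_of_mem_erase hy).symm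
    rw [Finset.mem_biUnion]
    exact ⟨e, Finset.mem_filter.2 ⟨he, hx⟩, Finset.mem_erase.2 ⟨Finset.ne_of_mem_erase hy, hy'⟩⟩
  have h1 := Finset.card_le_card hsub
  rw [Finset.card_erase_of_mem (Finset.mem_univ x), Finset.card_univ, Fintype.card_fin] at h1
  have h2 : ((E.filter (fun e => x ∈ e)).biUnion (fun e => e.erase x)).card
      ≤ (E.filter (fun e => x ∈ e)).card * (r - 1) := by
    refine Finset.card_biUnion_le_card_mul _ _ _ ?_
    intro e he
    rw [Finset.mem_filter] at he
    rw [Finset.card_erase_of_mem he.2]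
    exact Nat.sub_le_sub_right (hE.rank e he.1) 1
  have h3 : (E.filter (fun e => x ∈ e)).card * (r - 1) ≤ Δ * (r - 1) :=
    Nat.mul_le_mul_right _ (hE.degree x)
  omega

lemma good_zero (Δ r : ℕ) : Good Δ r 0 := by
  refine ⟨∅, ?_, ?_, ?_, ?_⟩
  · simp
  · intro x; exact x.elim0
  · intro x; exact x.elim0
  · simp

lemma bddAbove_good (Δ r : ℕ) : BddAbove {n : ℕ | Good Δ r n} :=
  ⟨1 + Δ * (r - 1), fun _ h => good_le h⟩

lemma le_nMax {Δ r n : ℕ} (h : Good Δ r n) : n ≤ nMax Δ r :=
  le_csSup (bddAbove_good Δ r) h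

lemma nMax_le {Δ r N : ℕ} (h : ∀ n, Good Δ r n → n ≤ N) : nMax Δ r ≤ N :=
  csSup_le ⟨0, good_zero Δ r⟩ h

lemma good_nMax (Δ r : ℕ) : Good Δ r (nMax Δ r) :=
  Nat.sSup_mem ⟨0, good_zero Δ r⟩ (bddAbove_good Δ r)

end Pool.Agent.Helper99.NMax
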