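import Mathlib
import Pool.Agent.Helper99.NMax.Defs

/-!
Lower bounds for `n(q+1,1,r)` from projective planes of order `q`.
-/

namespace Pool.Agent.Helper99.NMax

open Finset

set_option linter.unusedSectionVars false

/-- Weighted blow-up of a finite family of blocks. -/
lemma good_blowup {P ι : Type} [Fintype P] [DecidableEq P] [Fintype ι] [DecidableEq ι]
    {Δ r : ℕ} (blk : ι → Finset P) (m : P → ℕ)
    (hcov : ∀ x y : P, ∃ i, x ∈ blk i ∧ y ∈ blk i)
    (hdeg : ∀ x : P, (univ.filter (fun i => x ∈ blk i)).card ≤ Δ)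
    (hrank : ∀ i, ∑ x ∈ blk i, m x ≤ r) : Good Δ r (∑ x, m x) := by
  classical
  let V := Σ x : P, Fin (m x)
  have hcV : Fintype.card V = ∑ x, m x := by simp [V]
  let f : Fin (∑ x, m x) ↪ V := (Fintype.equivFinOfCardEq hcV).symm.toEmbedding
  refine good_of_family f (fun i => (univ : Finset V).filter (fun p => p.1 ∈ blk i)) ?_ ?_ ?_
  · intro p p' _
    obtain ⟨i, h1, h2⟩ := hcov p.1 p'.1
    exact ⟨i, by simp [h1], by simp [h2]⟩
  · intro p
    refine le_trans (le_of_eq ?_) (hdeg p.1)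
    congr 1
    ext i
    simp
  · intro i
    refine le_trans (le_of_eq ?_) (hrank i)
    have : (univ : Finset V).filter (fun p => p.1 ∈ blk i)
        = (blk i).sigma (fun x => (univ : Finset (Fin (m x)))) := by
      ext p
      rw [Finset.mem_filter, Finset.mem_sigma]
      simp
    rw [this, Finset.card_sigma]
    simp

section Plane

variable {q : ℕ} {B : Finset (Finset (Fin (q ^ 2 + q + 1)))}

lemma block_eq (hB : ∀ x y, x ≠ y → ∃! l, l ∈ B ∧ x ∈ l ∧ y ∈ l)
    {l l' : Finset (Fin (q ^ 2 + q + 1))} (hl : l ∈ B) (hl' : l' ∈ B)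
    {x y : Fin (q ^ 2 + q + 1)} (hxy : x ≠ y) (h1 : x ∈ l) (h2 : y ∈ l) (h3 : x ∈ l')
    (h4 : y ∈ l') : l = l' :=
  (hB x y hxy).unique ⟨hl, h1, h2⟩ ⟨hl', h3, h4⟩

/-- Every point lies on exactly `q + 1` lines. -/
lemma card_lines_through (hq : 1 ≤ q) (hs : ∀ l ∈ B, l.card = q + 1)
    (hB : ∀ x y, x ≠ y → ∃! l, l ∈ B ∧ x ∈ l ∧ y ∈ l) (x : Fin (q ^ 2 + q + 1)) :
    (B.filter (fun l => x ∈ l)).card = q + 1 := by
  classical
  have h1 : (univ.erase x : Finset (Fin (q ^ 2 + q + 1))) =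
      (B.filter (fun l => x ∈ l)).biUnion (fun l => l.erase x) := by
    ext y
    simp only [Finset.mem_erase, Finset.mem_univ, and_true, Finset.mem_biUnion,
      Finset.mem_filter]
    constructor
    · intro hy
      obtain ⟨l, ⟨hl, hx, hy'⟩, _⟩ := hB x y (Ne.symm hy)
      exact ⟨l, ⟨hl, hx⟩, hy, hy'⟩
    · rintro ⟨l, _, hy, _⟩; exact hy
  have h2 : (univ.erase x : Finset (Fin (q ^ 2 + q + 1))).card = q ^ 2 + q := by
    rw [Finset.card_erase_of_mem (Finset.mem_univ _), Finset.card_univ, Fintype.card_fin]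
    omega
  rw [h1, Finset.card_biUnion] at h2
  · have h3 : ∑ l ∈ B.filter (fun l => x ∈ l), (l.erase x).card
        = (B.filter (fun l => x ∈ l)).card * q := by
      rw [Finset.sum_congr rfl (g := fun _ => q), Finset.sum_const, smul_eq_mul]
      intro l hl
      rw [Finset.mem_filter] at hl
      rw [Finset.card_erase_of_mem hl.2, hs l hl.1]
      omega
    rw [h3] at h2
    have h4 : q ^ 2 + q = (q + 1) * q := by ring
    exact Nat.eq_of_mul_eq_mul_right (by omega) (h2.trans h4)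
  · intro l hl l' hl' hne
    rw [Finset.mem_coe, Finset.mem_filter] at hl hl'
    rw [Function.onFun, Finset.disjoint_left]
    intro y hy hy'
    rw [Finset.mem_erase] at hy hy'
    exact hne (block_eq hB hl.1 hl'.1 (Ne.symm hy.1) hl.2 hy.2 hl'.2 hy'.2)

/-- Two distinct lines meet in exactly one point. -/
lemma card_inter (hq : 1 ≤ q) (hs : ∀ l ∈ B, l.card = q + 1)
    (hB : ∀ x y, x ≠ y → ∃! l, l ∈ B ∧ x ∈ l ∧ y ∈ l)
    {l l₀ : Finset (Fin (q ^ 2 + q + 1))} (hl : l ∈ B) (hl₀ : l₀ ∈ B) (hne : l ≠ l₀) :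
    (l ∩ l₀).card = 1 := by
  classical
  have hle : (l ∩ l₀).card ≤ 1 := by
    rw [Finset.card_le_one]
    intro x hx y hy
    rw [Finset.mem_inter] at hx hy
    by_contra hxy
    exact hne (block_eq hB hl hl₀ hxy hx.1 hy.1 hx.2 hy.2)
  have hsub : ¬ l ⊆ l₀ := fun h => hne (Finset.eq_of_subset_of_card_le h
    (by rw [hs l hl, hs l₀ hl₀]))
  obtain ⟨x, hxl, hx0⟩ := Finset.not_subset.1 hsub
  -- the line through `x` and a point of `l₀`
  have hch : ∀ y : Fin (q ^ 2 + q + 1), ∃ k : Finset (Fin (q ^ 2 + q + 1)),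
      y ∈ l₀ → k ∈ B ∧ x ∈ k ∧ y ∈ k := by
    intro y
    by_cases hy : y ∈ l₀
    · have hxy : x ≠ y := fun h => hx0 (h ▸ hy)
      obtain ⟨k, hk, _⟩ := hB x y hxy
      exact ⟨k, fun _ => hk⟩
    · exact ⟨∅, fun h => absurd h hy⟩
  choose g hg using hch
  have hinj : Set.InjOn g (l₀ : Set (Fin (q ^ 2 + q + 1))) := by
    intro y hy y' hy' hyy
    by_contra hne'
    have h1 := hg y hy
    have h2 := hg y' hy'
    rw [← hyy] at h2
    have := block_eq hB h1.1 hl₀ hne' h1.2.2 h2.2.2 hy hy'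
    rw [this] at h1
    exact hx0 h1.2.1
  have himg : l₀.image g = B.filter (fun k => x ∈ k) := by
    apply Finset.eq_of_subset_of_card_le
    · intro k hk
      obtain ⟨y, hy, rfl⟩ := Finset.mem_image.1 hk
      rw [Finset.mem_filter]
      exact ⟨(hg y hy).1, (hg y hy).2.1⟩
    · rw [card_lines_through hq hs hB, Finset.card_image_of_injOn hinj, hs l₀ hl₀]
  have hlm : l ∈ l₀.image g := by rw [himg, Finset.mem_filter]; exact ⟨hl, hxl⟩
  obtain ⟨y, hy, hyl⟩ := Finset.mem_image.1 hlm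
  have : y ∈ l ∩ l₀ := Finset.mem_inter.2 ⟨hyl ▸ (hg y hy).2.2, hy⟩
  have := Finset.card_pos.2 ⟨y, this⟩
  omega

lemma plane_cov (hq : 1 ≤ q) (hs : ∀ l ∈ B, l.card = q + 1)
    (hB : ∀ x y, x ≠ y → ∃! l, l ∈ B ∧ x ∈ l ∧ y ∈ l) (x y : Fin (q ^ 2 + q + 1)) :
    ∃ i : {l // l ∈ B}, x ∈ i.1 ∧ y ∈ i.1 := by
  by_cases hxy : x = y
  · subst hxy
    have h := card_lines_through hq hs hB x
    have : 0 < (B.filter (fun l => x ∈ l)).card := by omega
    obtain ⟨l, hl⟩ := Finset.card_pos.1 this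
    rw [Finset.mem_filter] at hl
    exact ⟨⟨l, hl.1⟩, hl.2, hl.2⟩
  · obtain ⟨l, ⟨hl, h1, h2⟩, _⟩ := hB x y hxy
    exact ⟨⟨l, hl⟩, h1, h2⟩

lemma plane_deg (hq : 1 ≤ q) (hs : ∀ l ∈ B, l.card = q + 1)
    (hB : ∀ x y, x ≠ y → ∃! l, l ∈ B ∧ x ∈ l ∧ y ∈ l) (x : Fin (q ^ 2 + q + 1)) :
    (univ.filter (fun i : {l // l ∈ B} => x ∈ i.1)).card ≤ q + 1 := by
  rw [← card_lines_through hq hs hB x]
  refine Finset.card_le_card_of_injOn Subtype.val ?_ Subtype.val_injective.injOn
  intro i hi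
  simp only [Finset.coe_filter, Finset.mem_univ, true_and, Set.mem_ofPred_eq] at hi ⊢
  exact ⟨i.2, hi⟩

end Plane

theorem lower {q a b : ℕ} (hq : 1 ≤ q) (hP : PlaneExists q) (hab : q ≤ a + b) (hb1 : 1 ≤ b)
    (hb2 : b ≤ q + 1) :
    Good (q + 1) (a * (q + 1) + b) (a * (q ^ 2 + q + 1) + 1 + (q + 1) * (b - 1)) := by
  classical
  obtain ⟨B, hs, hB⟩ := hP
  -- a line
  obtain ⟨l₀, hl₀⟩ : ∃ l₀, l₀ ∈ B := by
    obtain ⟨i, _⟩ := plane_cov hq hs hB ⟨0, by omega⟩ ⟨0, by omega⟩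
    exact ⟨i.1, i.2⟩
  set m : Fin (q ^ 2 + q + 1) → ℕ := fun x => if x ∈ l₀ then a + b - q else a + 1 with hm
  have hsum : ∀ l : Finset (Fin (q ^ 2 + q + 1)), ∑ x ∈ l, m x =
      (l ∩ l₀).card * (a + b - q) + (l \ l₀).card * (a + 1) := by
    intro l
    rw [hm, Finset.sum_ite, Finset.sum_const, Finset.sum_const, smul_eq_mul, smul_eq_mul,
      Finset.filter_mem_eq_inter, Finset.filter_notMem_eq_sdiff]
  have hmain := good_blowup (Δ := q + 1) (r := a * (q + 1) + b)
    (fun i : {l // l ∈ B} => i.1) m (plane_cov hq hs hB) (plane_deg hq hs hB) (by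
      rintro ⟨l, hl⟩
      show ∑ x ∈ l, m x ≤ _
      rw [hsum]
      obtain ⟨c, hc⟩ : ∃ c, a + b = q + c := ⟨a + b - q, by omega⟩
      have hc' : a + b - q = c := by omega
      rw [hc']
      by_cases h : l = l₀
      · subst h
        rw [Finset.inter_self, Finset.sdiff_self, hs l hl, Finset.card_empty, zero_mul,
          add_zero]
        -- (q+1) c ≤ a (q+1) + b
        have hb : b = q + c - a := by omega
        have hca : c ≤ a + 1 := by omega
        rcases Nat.lt_or_ge a c with h | h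
        · have : c = a + 1 := by omega
          have hbq : b = q + 1 := by omega
          rw [this, hbq]; nlinarith
        · have : (q + 1) * c ≤ (q + 1) * a := Nat.mul_le_mul_left _ h
          nlinarith
      · have h1 := card_inter hq hs hB hl hl₀ h
        have h2 : (l \ l₀).card = q := by
          have := Finset.card_sdiff_add_card_inter l l₀
          rw [h1, hs l hl] at this
          omega
        rw [h1, h2]
        have : 1 * c + q * (a + 1) = a * (q + 1) + b := by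
          have : q * (a + 1) = a * q + q := by ring
          have h3 : a * (q + 1) = a * q + a := by ring
          omega
        omega)
  convert hmain using 1
  have h1 := hsum univ
  rw [Finset.univ_inter, hs l₀ hl₀] at h1
  have h2 : (univ \ l₀ : Finset (Fin (q ^ 2 + q + 1))).card = q ^ 2 := by
    rw [Finset.card_sdiff_of_subset (Finset.subset_univ _), hs l₀ hl₀, Finset.card_univ,
      Fintype.card_fin]
    omega
  rw [h1, h2]
  obtain ⟨c, hc⟩ : ∃ c, a + b = q + c := ⟨a + b - q, by omega⟩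
  have hc' : a + b - q = c := by omega
  rw [hc']
  obtain ⟨b', rfl⟩ : ∃ b', b = b' + 1 := ⟨b - 1, by omega⟩
  rw [Nat.add_sub_cancel]
  have hcz : (a : ℤ) + b' + 1 = q + c := by exact_mod_cast (by omega : a + b' + 1 = q + c)
  zify
  have : (b' : ℤ) = q + c - a - 1 := by linarith
  rw [this]
  ring

/-- One extra vertex. -/
theorem lower_one {q a : ℕ} (hq : 1 ≤ q) (hP : PlaneExists q) :
    Good (q + 1) (a * (q + 1) + 1) (a * (q ^ 2 + q + 1) + 1) := by
  classical
  obtain ⟨B, hs, hB⟩ := hP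
  set m : Fin (q ^ 2 + q + 1) → ℕ := fun x => if x = ⟨0, by omega⟩ then a + 1 else a with hm
  have hsum : ∀ l : Finset (Fin (q ^ 2 + q + 1)), ∑ x ∈ l, m x =
      l.card * a + (if (⟨0, by omega⟩ : Fin (q ^ 2 + q + 1)) ∈ l then 1 else 0) := by
    intro l
    have : ∀ x, m x = a + (if x = (⟨0, by omega⟩ : Fin (q ^ 2 + q + 1)) then 1 else 0) := by
      intro x; simp only [hm]; split_ifs <;> rfl
    rw [Finset.sum_congr rfl fun x _ => this x, Finset.sum_add_distrib, Finset.sum_const,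
      smul_eq_mul, Finset.sum_ite_eq']
  have hmain := good_blowup (Δ := q + 1) (r := a * (q + 1) + 1)
    (fun i : {l // l ∈ B} => i.1) m (plane_cov hq hs hB) (plane_deg hq hs hB) (by
      rintro ⟨l, hl⟩
      show ∑ x ∈ l, m x ≤ _
      rw [hsum, hs l hl, mul_comm]
      split_ifs <;> omega)
  convert hmain using 1
  rw [hsum univ, Finset.card_univ, Fintype.card_fin, if_pos (Finset.mem_univ _), mul_comm]

end Pool.Agent.Helper99.NMax
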