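import Mathlib
import Pool.Agent.Helper99.NMax.Lower

/-!
Lower bounds for `n(q+1,1,r)`, `q` a power of two, from Denniston's maximal arcs.
-/

namespace Pool.Agent.Helper99.NMax

open Finset

section

variable {K : Type} [Field K] [Fintype K] [CharP K 2]

open Classical in
/-- A quadratic polynomial function over a field of characteristic two which either has no linear
term or has no root takes values in an additive subgroup `H` at most `|H|` times. -/
lemma quad_count (H : AddSubgroup K) (α β γ : K) (hα : α ≠ 0)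
    (h : β = 0 ∨ ∀ x, α * x ^ 2 + β * x + γ ≠ 0) :
    (univ.filter (fun x : K => α * x ^ 2 + β * x + γ ∈ H)).card ≤ Nat.card H := by
  set f : K → K := fun x => α * x ^ 2 + β * x + γ with hf
  set X := univ.filter (fun x : K => f x ∈ H) with hX
  have hcardH : Nat.card H = (univ.filter (fun x : K => x ∈ H)).card := by
    rw [Nat.card_eq_fintype_card, Fintype.card_subtype]
  rw [hcardH]
  have h2 : (2 : K) = 0 := CharTwo.two_eq_zero
  rcases h with h | h
  · refine Finset.card_le_card_of_injOn f ?_ ?_
    · intro x hx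
      have := (Finset.mem_filter.1 hx).2
      simpa using this
    · intro x _ y _ hxy
      simp only [hf, h, zero_mul, add_zero] at hxy
      have h3 : α * x ^ 2 = α * y ^ 2 := by linear_combination hxy
      have h4 := mul_left_cancel₀ hα h3
      have h5 : (x - y) ^ 2 = 0 := by
        have : (x - y) ^ 2 = x ^ 2 - y ^ 2 + 2 * (y ^ 2 - x * y) := by ring
        rw [this, h4, h2]; ring
      exact sub_eq_zero.1 (pow_eq_zero_iff (two_ne_zero) |>.1 h5)
  · rcases X.eq_empty_or_nonempty with he | ⟨x₀, hx₀⟩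
    · rw [he]; simp
    have hfib : ∀ c ∈ X.image f, (X.filter (fun x => f x = c)).card ≤ 2 := by
      intro c _
      -- two roots
      rcases (X.filter (fun x => f x = c)).eq_empty_or_nonempty with he | ⟨x₁, hx₁⟩
      · rw [he]; simp
      have hsub : X.filter (fun x => f x = c) ⊆ {x₁, -β / α - x₁} := by
        intro x hx
        have e1 := (Finset.mem_filter.1 hx).2
        have e2 := (Finset.mem_filter.1 hx₁).2
        simp only [hf] at e1 e2
        have e3 : (x - x₁) * (α * (x + x₁) + β) = 0 := by linear_combination e1 - e2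
        rcases mul_eq_zero.1 e3 with e4 | e4
        · simp [sub_eq_zero.1 e4]
        · have : x = -β / α - x₁ := by
            field_simp
            linear_combination e4
          simp [this]
      exact le_trans (Finset.card_le_card hsub) Finset.card_le_two
    have h3 := Finset.card_le_mul_card_image X 2 hfib
    refine le_trans h3 ?_
    set S := X.image f with hS
    have hSH : S ⊆ univ.filter (fun x : K => x ∈ H) := by
      intro c hc
      obtain ⟨x, hx, rfl⟩ := Finset.mem_image.1 hc
      have := (Finset.mem_filter.1 hx).2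
      simpa using this
    have hx₀' : f x₀ ∈ H := (Finset.mem_filter.1 hx₀).2
    have hTH : S.image (fun c => f x₀ + c) ⊆ univ.filter (fun x : K => x ∈ H) := by
      intro c hc
      obtain ⟨d, hd, rfl⟩ := Finset.mem_image.1 hc
      have := (Finset.mem_filter.1 (hSH hd)).2
      simpa using H.add_mem hx₀' this
    have hdisj : Disjoint S (S.image (fun c => f x₀ + c)) := by
      rw [Finset.disjoint_left]
      intro c hc hc'
      obtain ⟨x₁, _, rfl⟩ := Finset.mem_image.1 hc
      obtain ⟨d, hd, hd'⟩ := Finset.mem_image.1 hc'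
      obtain ⟨x₂, _, rfl⟩ := Finset.mem_image.1 hd
      apply h (x₀ + x₂ - x₁)
      simp only [hf] at hd'
      linear_combination hd' + h2 * (α * (x₁ ^ 2 + x₀ * x₂ - x₁ * x₀ - x₁ * x₂))
    have hcardT : (S.image (fun c => f x₀ + c)).card = S.card :=
      Finset.card_image_of_injective _ (add_right_injective _)
    have := Finset.card_le_card (Finset.union_subset hSH hTH)
    rw [Finset.card_union_of_disjoint hdisj, hcardT] at this
    omega

variable (K) in
/-- Points (and lines) of the projective plane over `K`. -/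
abbrev PG := (K × K) ⊕ Option K

omit [Fintype K] [CharP K 2] in
variable (K) in
/-- Incidence: the lines are `y = m x + c`, `x = c` and the line at infinity. -/
def inc : PG K → PG K → Prop
  | Sum.inl (x, y), Sum.inl (m, c) => y = m * x + c
  | Sum.inl (x, _), Sum.inr (some c) => x = c
  | Sum.inl _, Sum.inr none => False
  | Sum.inr (some m'), Sum.inl (m, _) => m' = m
  | Sum.inr none, Sum.inl _ => False
  | Sum.inr none, Sum.inr _ => True
  | Sum.inr (some _), Sum.inr none => True
  | Sum.inr (some _), Sum.inr (some _) => False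

section simps
omit [Fintype K] [CharP K 2]
variable {x y m c m' c' : K}
@[simp] lemma inc_ll : inc K (Sum.inl (x, y)) (Sum.inl (m, c)) ↔ y = m * x + c := Iff.rfl
@[simp] lemma inc_ls : inc K (Sum.inl (x, y)) (Sum.inr (some c)) ↔ x = c := Iff.rfl
@[simp] lemma inc_ln : ¬ inc K (Sum.inl (x, y)) (Sum.inr none) := fun h => h
@[simp] lemma inc_sl : inc K (Sum.inr (some m')) (Sum.inl (m, c)) ↔ m' = m := Iff.rfl
@[simp] lemma inc_nl : ¬ inc K (Sum.inr none) (Sum.inl (m, c)) := fun h => h
@[simp] lemma inc_nr {o : Option K} : inc K (Sum.inr none) (Sum.inr o) := trivial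
@[simp] lemma inc_sn : inc K (Sum.inr (some m')) (Sum.inr none) := trivial
@[simp] lemma inc_ss : ¬ inc K (Sum.inr (some m')) (Sum.inr (some c)) := fun h => h
end simps

omit [Fintype K] [CharP K 2] in
lemma inc_cov (p p' : PG K) : ∃ i, inc K p i ∧ inc K p' i := by
  rcases p with ⟨x, y⟩ | (_ | m) <;> rcases p' with ⟨x', y'⟩ | (_ | m')
  · by_cases h : x = x'
    · exact ⟨Sum.inr (some x), by simp, by simp [h]⟩
    · have h' : x' - x ≠ 0 := sub_ne_zero.2 (Ne.symm h)
      refine ⟨Sum.inl ((y' - y) / (x' - x), y - (y' - y) / (x' - x) * x), ?_, ?_⟩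
      · simp
      · rw [inc_ll]
        field_simp
        ring
  · exact ⟨Sum.inr (some x), by simp, by simp⟩
  · exact ⟨Sum.inl (m', y - m' * x), by simp, by simp⟩
  · exact ⟨Sum.inr (some x'), by simp, by simp⟩
  · exact ⟨Sum.inr none, by simp, by simp⟩
  · exact ⟨Sum.inr none, by simp, by simp⟩
  · exact ⟨Sum.inl (m, y' - m * x'), by simp, by simp⟩
  · exact ⟨Sum.inr none, by simp, by simp⟩
  · exact ⟨Sum.inr none, by simp, by simp⟩

/-- Coordinates. -/
def g1 : PG K → Option K
  | Sum.inl (x, _) => some x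
  | Sum.inr _ => none
/-- Coordinates. -/
def g2 : PG K → Option K
  | Sum.inl (_, y) => some y
  | Sum.inr _ => none
/-- Coordinates. -/
def g3 : PG K → Option K
  | Sum.inl (x, _) => some x
  | Sum.inr o => o

section simps
omit [Field K] [Fintype K] [CharP K 2]
variable {x y : K} {o : Option K}
@[simp] lemma g1_l : g1 (Sum.inl (x, y)) = some x := rfl
@[simp] lemma g1_r : g1 (Sum.inr o) = none := rfl
@[simp] lemma g2_l : g2 (Sum.inl (x, y)) = some y := rfl
@[simp] lemma g2_r : g2 (Sum.inr o) = none := rfl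
@[simp] lemma g3_l : g3 (Sum.inl (x, y)) = some x := rfl
@[simp] lemma g3_r : g3 (Sum.inr o) = o := rfl
end simps

open Classical in
omit [CharP K 2] in
lemma inc_deg (p : PG K) : (univ.filter (fun i => inc K p i)).card ≤ Fintype.card K + 1 := by
  rw [← Fintype.card_option]
  have key : ∀ g : PG K → Option K, (∀ i j, inc K p i → inc K p j → g i = g j → i = j) →
      (univ.filter (fun i => inc K p i)).card ≤ Fintype.card (Option K) := by
    intro g hg
    refine Finset.card_le_card_of_injOn g (fun _ _ => Finset.mem_univ _) ?_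
    intro i hi j hj hij
    exact hg i j (Finset.mem_filter.1 hi).2 (Finset.mem_filter.1 hj).2 hij
  rcases p with ⟨x, y⟩ | (_ | m)
  · refine key g1 ?_
    clear key
    rintro (⟨m, c⟩ | (_ | c)) (⟨m', c'⟩ | (_ | c')) h1 h2 h3 <;> simp_all
  · refine key g3 ?_
    clear key
    rintro (⟨m, c⟩ | (_ | c)) (⟨m', c'⟩ | (_ | c')) h1 h2 h3 <;> simp_all
  · refine key g2 ?_
    clear key
    rintro (⟨m, c⟩ | (_ | c)) (⟨m', c'⟩ | (_ | c')) h1 h2 h3 <;> simp_all

open Classical in
omit [CharP K 2] in
lemma inc_size (i : PG K) : (univ.filter (fun p => inc K p i)).card ≤ Fintype.card K + 1 := by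
  rw [← Fintype.card_option]
  have key : ∀ g : PG K → Option K, (∀ p p', inc K p i → inc K p' i → g p = g p' → p = p') →
      (univ.filter (fun p => inc K p i)).card ≤ Fintype.card (Option K) := by
    intro g hg
    refine Finset.card_le_card_of_injOn g (fun _ _ => Finset.mem_univ _) ?_
    intro p hp p' hp' hpp
    exact hg p p' (Finset.mem_filter.1 hp).2 (Finset.mem_filter.1 hp').2 hpp
  rcases i with ⟨m, c⟩ | (_ | c)
  · refine key g1 ?_
    clear key
    rintro (⟨x, y⟩ | (_ | x)) (⟨x', y'⟩ | (_ | x')) h1 h2 h3 <;> simp_all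
  · refine key g3 ?_
    clear key
    rintro (⟨x, y⟩ | (_ | x)) (⟨x', y'⟩ | (_ | x')) h1 h2 h3 <;> simp_all
  · refine key g2 ?_
    clear key
    rintro (⟨x, y⟩ | (_ | x)) (⟨x', y'⟩ | (_ | x')) h1 h2 h3 <;> simp_all

/-- The quadratic form. -/
def qf (δ x y : K) : K := x ^ 2 + x * y + δ * y ^ 2

/-- Denniston's maximal arc. -/
def arc (δ : K) (H : AddSubgroup K) : PG K → Prop
  | Sum.inl (x, y) => qf δ x y ∈ H
  | Sum.inr _ => False

section simps
omit [Fintype K] [CharP K 2]
variable {δ x y : K} {H : AddSubgroup K} {o : Option K}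
@[simp] lemma arc_l : arc δ H (Sum.inl (x, y)) ↔ qf δ x y ∈ H := Iff.rfl
@[simp] lemma arc_r : ¬ arc δ H (Sum.inr o) := fun h => h
end simps

omit [Fintype K] in
lemma qf_ne_zero {δ : K} (hδ : ∀ z : K, z ^ 2 + z ≠ δ) {x y : K} (h : qf δ x y = 0) :
    x = 0 ∧ y = 0 := by
  have h2 : (2 : K) = 0 := CharTwo.two_eq_zero
  by_cases hy : y = 0
  · subst hy
    simp only [qf, mul_zero, add_zero, ne_eq, OfNat.ofNat_ne_zero, not_false_eq_true,
      zero_pow] at h
    exact ⟨pow_eq_zero_iff (two_ne_zero) |>.1 h, rfl⟩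
  · exfalso
    apply hδ (x / y)
    simp only [qf] at h
    field_simp
    linear_combination h - δ * y ^ 2 * h2

omit [Fintype K] [CharP K 2] in
lemma qf_dir_ne (δ : K) (hδ : ∀ {x y : K}, qf δ x y = 0 → x = 0 ∧ y = 0) (m : K) :
    1 + m + δ * m ^ 2 ≠ 0 := by
  intro h
  have := hδ (x := 1) (y := m) (by simp only [qf]; linear_combination h)
  exact one_ne_zero this.1

open Classical in
lemma arc_line {δ : K} (hδ : ∀ z : K, z ^ 2 + z ≠ δ) (H : AddSubgroup K) (i : PG K) :
    (univ.filter (fun p => inc K p i ∧ arc δ H p)).card ≤ Nat.card H := by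
  have h2 : (2 : K) = 0 := CharTwo.two_eq_zero
  have hq : ∀ {x y : K}, qf δ x y = 0 → x = 0 ∧ y = 0 := fun h => qf_ne_zero hδ h
  have key : ∀ (g : PG K → Option K) (α β γ : K), α ≠ 0 →
      (β = 0 ∨ ∀ x, α * x ^ 2 + β * x + γ ≠ 0) →
      (∀ p, inc K p i → arc δ H p → ∃ x, g p = some x ∧ α * x ^ 2 + β * x + γ ∈ H) →
      (∀ p p', inc K p i → inc K p' i → arc δ H p → arc δ H p' → g p = g p' → p = p') →
      (univ.filter (fun p => inc K p i ∧ arc δ H p)).card ≤ Nat.card H := by
    intro g α β γ hα hβ h1 h3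
    refine le_trans ?_ (quad_count H α β γ hα hβ)
    refine Finset.card_le_card_of_injOn (fun p => (g p).getD 0) ?_ ?_
    · intro p hp
      have hp' := (Finset.mem_filter.1 hp).2
      obtain ⟨x, hx, hx'⟩ := h1 p hp'.1 hp'.2
      simp [hx, hx']
    · intro p hp p' hp' hpp
      have hp1 := (Finset.mem_filter.1 hp).2
      have hp2 := (Finset.mem_filter.1 hp').2
      obtain ⟨x, hx, hx'⟩ := h1 p hp1.1 hp1.2
      obtain ⟨y, hy, hy'⟩ := h1 p' hp2.1 hp2.2
      apply h3 p p' hp1.1 hp2.1 hp1.2 hp2.2
      simp only [hx, hy, Option.getD_some] at hpp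
      rw [hx, hy, hpp]
  rcases i with ⟨m, c⟩ | (_ | c)
  · refine key g1 (1 + m + δ * m ^ 2) c (δ * c ^ 2) (qf_dir_ne δ hq m) ?_ ?_ ?_
    · by_cases hc : c = 0
      · exact Or.inl hc
      · right
        intro x hx
        have := hq (x := x) (y := m * x + c) (by
          simp only [qf]
          linear_combination hx + (δ * m * c * x) * h2)
        rw [this.1] at this
        apply hc
        simpa using this.2
    · rintro (⟨x, y⟩ | (_ | x)) hp hp'
      · refine ⟨x, rfl, ?_⟩
        rw [inc_ll] at hp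
        rw [arc_l, qf] at hp'
        subst hp
        convert hp' using 1
        linear_combination (-δ * m * c * x) * h2
      · exact absurd hp' arc_r
      · exact absurd hp' arc_r
    · clear key hq hδ
      rintro (⟨x, y⟩ | (_ | x)) (⟨x', y'⟩ | (_ | x')) h1 h2 h3 h4 h5 <;> simp_all
  · rw [Finset.filter_eq_empty_iff.2]
    · simp
    · rintro (⟨x, y⟩ | (_ | x)) _ <;> simp
  · have hδ0 : δ ≠ 0 := by
      intro h
      exact hδ 0 (by simp [h])
    refine key g2 δ c (c ^ 2) hδ0 ?_ ?_ ?_
    · by_cases hc : c = 0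
      · exact Or.inl hc
      · right
        intro y hy
        have := hq (x := c) (y := y) (by
          simp only [qf]
          linear_combination hy)
        exact hc this.1
    · rintro (⟨x, y⟩ | (_ | x)) hp hp'
      · refine ⟨y, rfl, ?_⟩
        rw [inc_ls] at hp
        rw [arc_l, qf] at hp'
        subst hp
        convert hp' using 1
        ring
      · exact absurd hp' arc_r
      · exact absurd hp' arc_r
    · clear key hq hδ
      rintro (⟨x, y⟩ | (_ | x)) (⟨x', y'⟩ | (_ | x')) h1 h2 h3 h4 h5 <;> simp_all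

open Classical in
lemma arc_card {δ : K} (hδ : ∀ z : K, z ^ 2 + z ≠ δ) (H : AddSubgroup K) :
    (Fintype.card K + 1) * (Nat.card H - 1) + 1 ≤ (univ.filter (fun p => arc δ H p)).card := by
  have hq : ∀ {x y : K}, qf δ x y = 0 → x = 0 ∧ y = 0 := fun h => qf_ne_zero hδ h
  have hδ0 : δ ≠ 0 := by
    intro h
    exact hδ 0 (by simp [h])
  have hsq : ∀ c : K, ∃ t : K, t ^ 2 = c := by
    intro c
    obtain ⟨t, ht⟩ := FiniteField.isSquare_of_char_two (ringChar.eq K 2) c
    exact ⟨t, by rw [ht]; ring⟩
  choose sq hsq using hsq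
  set Hs := univ.filter (fun c : K => c ∈ H ∧ c ≠ 0) with hHs
  have hHcard : Hs.card = Nat.card H - 1 := by
    have h1 : Hs = (univ.filter (fun c : K => c ∈ H)).erase 0 := by
      ext c
      simp [hHs, and_comm]
    rw [h1, Finset.card_erase_of_mem (by simp), Nat.card_eq_fintype_card, Fintype.card_subtype]
  let dir : Option K → K × K := fun o => match o with
    | some m => (1, m)
    | none => (0, 1)
  have hdir : ∀ o, qf δ (dir o).1 (dir o).2 ≠ 0 := by
    rintro (_ | m) h
    · have := hq h
      exact one_ne_zero this.2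
    · have := hq h
      exact one_ne_zero this.1
  let f : Option K × K → PG K := fun oc =>
    Sum.inl (sq (oc.2 / qf δ (dir oc.1).1 (dir oc.1).2) * (dir oc.1).1,
      sq (oc.2 / qf δ (dir oc.1).1 (dir oc.1).2) * (dir oc.1).2)
  have hval : ∀ (t x y : K), qf δ (t * x) (t * y) = t ^ 2 * qf δ x y := by
    intro t x y
    simp only [qf]; ring
  have hfval : ∀ (o : Option K) (c : K),
      qf δ (sq (c / qf δ (dir o).1 (dir o).2) * (dir o).1)
        (sq (c / qf δ (dir o).1 (dir o).2) * (dir o).2) = c := by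
    intro o c
    rw [hval, hsq]
    exact div_mul_cancel₀ c (hdir o)
  have hmaps : (univ ×ˢ Hs).image f ⊆ (univ.filter (fun p => arc δ H p)).erase (Sum.inl (0, 0)) := by
    intro p hp
    obtain ⟨⟨o, c⟩, hoc, rfl⟩ := Finset.mem_image.1 hp
    rw [Finset.mem_product] at hoc
    have hc := (Finset.mem_filter.1 hoc.2).2
    rw [Finset.mem_erase, Finset.mem_filter]
    refine ⟨?_, Finset.mem_univ _, ?_⟩
    · intro h
      have h1 := hfval o c
      simp only [f, Sum.inl.injEq, Prod.mk.injEq] at h
      rw [h.1, h.2] at h1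
      apply hc.2
      rw [← h1]
      simp [qf]
    · show qf δ _ _ ∈ H
      rw [hfval o c]
      exact hc.1
  have hinj : Set.InjOn f ((univ ×ˢ Hs : Finset (Option K × K)) : Set (Option K × K)) := by
    rintro ⟨o, c⟩ hoc ⟨o', c'⟩ hoc' h
    rw [Finset.mem_coe, Finset.mem_product] at hoc hoc'
    have hc := (Finset.mem_filter.1 hoc.2).2.2
    have hc' := (Finset.mem_filter.1 hoc'.2).2.2
    have h1 := hfval o c
    have h1' := hfval o' c'
    simp only [f, Sum.inl.injEq, Prod.mk.injEq] at h
    have hcc : c = c' := by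
      rw [← h1, ← h1', h.1, h.2]
    subst hcc
    have ht : sq (c / qf δ (dir o).1 (dir o).2) ≠ 0 := by
      intro h0
      have := hsq (c / qf δ (dir o).1 (dir o).2)
      rw [h0] at this
      have h5 := div_eq_zero_iff.1 (this.symm.trans (by ring : (0 : K) ^ 2 = 0))
      rcases h5 with h5 | h5
      · exact hc h5
      · exact hdir o h5
    have ht' : sq (c / qf δ (dir o').1 (dir o').2) ≠ 0 := by
      intro h0
      have := hsq (c / qf δ (dir o').1 (dir o').2)
      rw [h0] at this
      have h5 := div_eq_zero_iff.1 (this.symm.trans (by ring : (0 : K) ^ 2 = 0))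
      rcases h5 with h5 | h5
      · exact hc h5
      · exact hdir o' h5
    congr 1
    rcases o with _ | m <;> rcases o' with _ | m'
    · rfl
    · exfalso
      apply ht'
      simpa [dir] using h.1.symm
    · exfalso
      apply ht
      simpa [dir] using h.1
    · have e1 := h.1
      have e2 := h.2
      simp only [dir, mul_one] at e1 e2
      simp only [dir] at ht
      rw [e1] at e2 ht
      rw [mul_left_cancel₀ ht e2]
  have h1 := Finset.card_le_card hmaps
  rw [Finset.card_image_of_injOn hinj, Finset.card_product, Finset.card_univ,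
    Fintype.card_option, hHcard, Finset.card_erase_of_mem] at h1
  · have h2 : 0 < (univ.filter (fun p => arc δ H p)).card :=
      Finset.card_pos.2 ⟨Sum.inl (0, 0), by simp [qf]⟩
    omega
  · simp [qf]

end

/-- Lower bound from maximal arcs of degree `2 ^ i` in planes of order `2 ^ h`. -/
theorem lower_arc {h i : ℕ} (hh : 1 ≤ h) (hi : i ≤ h) (a : ℕ) :
    Good (2 ^ h + 1) (a * (2 ^ h + 1) + 2 ^ i)
      (a * ((2 ^ h) ^ 2 + 2 ^ h + 1) + ((2 ^ h + 1) * (2 ^ i - 1) + 1)) := by
  classical
  let K := GaloisField 2 h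
  have : Fintype K := Fintype.ofFinite K
  have hK : Fintype.card K = 2 ^ h := by
    rw [← Nat.card_eq_fintype_card]
    exact GaloisField.card 2 h (by omega)
  have hchar : CharP K 2 := inferInstance
  have h2 : (2 : K) = 0 := CharTwo.two_eq_zero
  -- an element not of the form `z ^ 2 + z`
  obtain ⟨δ, hδ⟩ : ∃ δ : K, ∀ z : K, z ^ 2 + z ≠ δ := by
    by_contra hcon
    push Not at hcon
    have hsurj : Function.Surjective (fun z : K => z ^ 2 + z) := hcon
    have hinj := Finite.injective_iff_surjective.2 hsurj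
    have : (0 : K) = 1 := hinj (by
      show (0 : K) ^ 2 + 0 = 1 ^ 2 + 1
      linear_combination -h2)
    exact zero_ne_one this
  -- a subgroup of order `2 ^ i`
  obtain ⟨H, hH⟩ : ∃ H : AddSubgroup K, Nat.card H = 2 ^ i := by
    obtain ⟨S, hS⟩ := Sylow.exists_subgroup_card_pow_prime (G := Multiplicative K) 2 (n := i) (by
      rw [Nat.card_congr (Multiplicative.toAdd), Nat.card_eq_fintype_card, hK]
      exact pow_dvd_pow 2 hi)
    refine ⟨Subgroup.toAddSubgroup' S, ?_⟩
    rw [← hS]
    rfl
  have hinc : ∀ l : PG K, (univ.filter (fun p => inc K p l)).card ≤ 2 ^ h + 1 := by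
    intro l
    rw [← hK]
    exact inc_size l
  set m : PG K → ℕ := fun p => a + (if arc δ H p then 1 else 0) with hm
  have hsum : ∀ s : Finset (PG K), ∑ p ∈ s, m p = s.card * a + (s.filter (fun p => arc δ H p)).card := by
    intro s
    simp only [hm]
    rw [Finset.sum_add_distrib, Finset.sum_const, smul_eq_mul, Finset.card_filter]
  have hmain := good_blowup (Δ := 2 ^ h + 1) (r := a * (2 ^ h + 1) + 2 ^ i)
    (fun l : PG K => univ.filter (fun p => inc K p l)) m ?_ ?_ ?_
  · refine good_mono hmain le_rfl le_rfl ?_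
    rw [hsum]
    have h1 := arc_card hδ H
    rw [hH, hK] at h1
    have h3 : (univ : Finset (PG K)).card = (2 ^ h) ^ 2 + 2 ^ h + 1 := by
      rw [Finset.card_univ, Fintype.card_sum, Fintype.card_prod, Fintype.card_option, hK]
      ring
    rw [h3, mul_comm]
    exact Nat.add_le_add_left h1 _
  · intro x y
    obtain ⟨l, h1, h2⟩ := inc_cov x y
    exact ⟨l, by simp [h1], by simp [h2]⟩
  · intro x
    rw [← hK]
    refine le_trans (le_of_eq ?_) (inc_deg x)
    congr 1
    ext l
    simp
  · intro l
    rw [hsum, Finset.filter_filter, mul_comm]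
    refine Nat.add_le_add (Nat.mul_le_mul_left _ (hinc l)) ?_
    rw [← hH]
    exact arc_line hδ H l

end Pool.Agent.Helper99.NMax
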