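import Mathlib
import Pool.Agent.Helper99.NMax.Defs

/-!
# Projective planes of prime power order, and the triangle
-/

namespace Pool.Agent.Helper99.NMax

open Finset Configuration
open scoped LinearAlgebra.Projectivization

lemma planeExists_of_projectivePlane {P L : Type} [Fintype P] [Fintype L] [Membership P L]
    [ProjectivePlane P L] {q : ℕ} (hcard : Fintype.card P = q ^ 2 + q + 1) :
    PlaneExists q := by
  classical
  have hord : ProjectivePlane.order P L = q := by
    have h := ProjectivePlane.card_points P L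
    rw [hcard] at h
    rcases lt_trichotomy (ProjectivePlane.order P L) q with h' | h' | h'
    · nlinarith
    · exact h'
    · nlinarith
  let e : P ≃ Fin (q ^ 2 + q + 1) := Fintype.equivFinOfCardEq hcard
  let f : L → Finset (Fin (q ^ 2 + q + 1)) :=
    fun l => Finset.univ.filter (fun x => e.symm x ∈ l)
  refine ⟨Finset.univ.image f, ?_, ?_⟩
  · intro s hs
    obtain ⟨l, -, rfl⟩ := Finset.mem_image.1 hs
    have h1 := ProjectivePlane.pointCount_eq P l
    rw [hord, pointCount, Nat.card_eq_fintype_card, Fintype.card_subtype] at h1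
    rw [← h1]
    refine Finset.card_bij (fun x _ => e.symm x) ?_ ?_ ?_
    · intro x hx
      simpa [f] using hx
    · intro x _ y _ hxy
      exact e.symm.injective hxy
    · intro p hp
      refine ⟨e p, ?_, by simp⟩
      simpa [f] using hp
  · intro x y hxy
    have hne : e.symm x ≠ e.symm y := fun h => hxy (e.symm.injective h)
    obtain ⟨l, ⟨hl1, hl2⟩, hl3⟩ := HasLines.existsUnique_line P L (e.symm x) (e.symm y) hne
    refine ⟨f l, ⟨Finset.mem_image_of_mem f (Finset.mem_univ l), ?_, ?_⟩, ?_⟩
    · simpa [f] using hl1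
    · simpa [f] using hl2
    · rintro s ⟨hs, hxs, hys⟩
      obtain ⟨l', -, rfl⟩ := Finset.mem_image.1 hs
      have : l' = l := hl3 l' ⟨by simpa [f] using hxs, by simpa [f] using hys⟩
      rw [this]

lemma planeExists_primePow {q : ℕ} (hq : IsPrimePow q) : PlaneExists q := by
  classical
  obtain ⟨p, k, hp, hk, rfl⟩ := hq
  have hp' : Nat.Prime p := hp.nat_prime
  have : Fact p.Prime := ⟨hp'⟩
  let K := GaloisField p k
  have : Fintype K := Fintype.ofFinite K
  have : Fintype (ℙ K (Fin 3 → K)) := Fintype.ofFinite _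
  refine planeExists_of_projectivePlane (P := ℙ K (Fin 3 → K)) (L := ℙ K (Fin 3 → K)) ?_
  rw [← Nat.card_eq_fintype_card, Projectivization.card_of_finrank K (Fin 3 → K) (n := 3) (by simp),
    GaloisField.card p k hk.ne']
  simp [Finset.sum_range_succ]
  ring

lemma planeExists_one : PlaneExists 1 := by
  refine ⟨{{0, 1}, {0, 2}, {1, 2}}, by decide, ?_⟩
  intro x y hxy
  refine ⟨{x, y}, ⟨?_, by simp, by simp⟩, ?_⟩
  · revert x y
    decide
  · rintro s ⟨hs, hx, hy⟩
    have h : ∀ s ∈ ({{0, 1}, {0, 2}, {1, 2}} : Finset (Finset (Fin (1 ^ 2 + 1 + 1)))),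
        s.card = 2 := by decide
    symm
    refine Finset.eq_of_subset_of_card_le ?_ ?_
    · intro z hz
      rcases Finset.mem_insert.1 hz with rfl | hz
      · exact hx
      · rw [Finset.mem_singleton] at hz
        rw [hz]
        exact hy
    · rw [h s hs, Finset.card_pair hxy]

end Pool.Agent.Helper99.NMax
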