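import Mathlib
import Pool.Agent.Helper99.NMax.Defs

/-!
A Fisher type improvement of the bound `n ≤ 1 + D (r - 1)` for `r > D`.
-/

namespace Pool.Agent.Helper99.NMax

open Finset

set_option linter.unusedSectionVars false

set_option maxHeartbeats 4000000 in
theorem fisher {Δ r n g : ℕ} (hG : Good Δ r n) (hΔ : Δ < r) (hg : g ≤ Δ - 1)
    (hcond : (g - 1) * (r - Δ + 1) ≤ r * (r - Δ)) : n + g ≤ Δ * (r - 1) + 1 := by
  classical
  have hmoore := good_le hG
  by_contra hcon
  push Not at hcon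
  -- the defect `k`
  obtain ⟨k, hk⟩ : ∃ k, n + k = Δ * (r - 1) + 1 := ⟨Δ * (r - 1) + 1 - n, by omega⟩
  have hkg : k + 1 ≤ g := by omega
  have hkΔ : k + 2 ≤ Δ := by omega
  have hkc : k * (r - Δ + 1) ≤ r * (r - Δ) :=
    le_trans (Nat.mul_le_mul_right _ (by omega)) hcond
  obtain ⟨E, hE⟩ := hG
  set S : Fin n → Finset (Finset (Fin n)) := fun v => E.filter (fun e => v ∈ e) with hS
  have hlam : ∀ v w : Fin n, v ≠ w → 1 ≤ (S v ∩ S w).card := by
    intro v w hvw
    obtain ⟨e, he, h1, h2⟩ := hE.covers v w hvw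
    exact Finset.card_pos.2 ⟨e, by simp [hS, he, h1, h2]⟩
  -- sums over the edges through `v`
  have hsum : ∀ v : Fin n, ∑ e ∈ S v, e.card = ∑ w, (S v ∩ S w).card := by
    intro v
    have h1 : ∀ w, (S v ∩ S w).card = ∑ e ∈ S v, if w ∈ e then 1 else 0 := by
      intro w
      rw [← Finset.card_filter]
      congr 1
      ext e
      simp only [hS, Finset.mem_inter, Finset.mem_filter]
      tauto
    simp only [h1]
    rw [Finset.sum_comm]
    refine Finset.sum_congr rfl fun e _ => ?_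
    rw [← Finset.card_filter]
    congr 1
    ext w; simp
  have hsplit : ∀ v : Fin n, ∑ e ∈ S v, e.card =
      (S v).card + ∑ w ∈ univ.erase v, (S v ∩ S w).card := by
    intro v
    rw [hsum v, ← Finset.add_sum_erase univ _ (Finset.mem_univ v), Finset.inter_self]
  have hn1 : ∀ v : Fin n, n - 1 ≤ ∑ w ∈ univ.erase v, (S v ∩ S w).card := by
    intro v
    calc n - 1 = ∑ w ∈ univ.erase v, 1 := by
          rw [← Finset.card_eq_sum_ones, Finset.card_erase_of_mem (Finset.mem_univ v),
            Finset.card_univ, Fintype.card_fin]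
      _ ≤ _ := Finset.sum_le_sum fun w hw => hlam v w (Ne.symm (Finset.ne_of_mem_erase hw))
  have hrank : ∀ v : Fin n, ∑ e ∈ S v, e.card ≤ (S v).card * r := by
    intro v
    exact Finset.sum_le_card_nsmul _ _ _ fun e he => hE.rank e (Finset.mem_filter.1 he).1
  have hdeg : ∀ v : Fin n, (S v).card = Δ := by
    intro v
    have hle : (S v).card ≤ Δ := hE.degree v
    by_contra hne
    have hlt : (S v).card + 1 ≤ Δ := by omega
    have h1 := hsplit v
    have h2 := hn1 v
    have h3 := hrank v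
    obtain ⟨r', rfl⟩ : ∃ r', r = r' + 1 := ⟨r - 1, by omega⟩
    rw [Nat.add_sub_cancel] at hk
    have h4 : (S v).card * (r' + 1) = (S v).card * r' + (S v).card := by ring
    have h5 : n - 1 ≤ (S v).card * r' := by omega
    have h6 : ((S v).card + 1) * r' ≤ Δ * r' := Nat.mul_le_mul_right _ hlt
    have h7 : ((S v).card + 1) * r' = (S v).card * r' + r' := by ring
    omega
  -- excess plus deficiency
  have hdefexc : ∀ v : Fin n, ∑ e ∈ S v, ((r : ℤ) - e.card) +
      ∑ w ∈ univ.erase v, (((S v ∩ S w).card : ℤ) - 1) = k := by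
    intro v
    have h1 : ((∑ e ∈ S v, e.card : ℕ) : ℤ) =
        ((S v).card : ℤ) + ∑ w ∈ univ.erase v, ((S v ∩ S w).card : ℤ) := by
      rw [hsplit v]; push_cast; rfl
    rw [Finset.sum_sub_distrib, Finset.sum_sub_distrib, Finset.sum_const, Finset.sum_const,
      Finset.card_erase_of_mem (Finset.mem_univ v), Finset.card_univ, Fintype.card_fin,
      hdeg v]
    have hn0 : 1 ≤ n := by have := v.2; omega
    rw [hdeg v] at h1
    push_cast at h1
    rw [nsmul_eq_mul, nsmul_eq_mul, Nat.cast_sub hn0]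
    have h2 : ((n + k : ℕ) : ℤ) = ((Δ * (r - 1) + 1 : ℕ) : ℤ) := by rw [hk]
    have hr1 : 1 ≤ r := by omega
    push_cast [Nat.cast_sub hr1] at h2
    push_cast
    linarith
  have hdefnn : ∀ v : Fin n, 0 ≤ ∑ e ∈ S v, ((r : ℤ) - e.card) := by
    intro v
    refine Finset.sum_nonneg fun e he => ?_
    have := hE.rank e (Finset.mem_filter.1 he).1
    have : (e.card : ℤ) ≤ r := by exact_mod_cast this
    linarith
  have hexcnn : ∀ v : Fin n, 0 ≤ ∑ w ∈ univ.erase v, (((S v ∩ S w).card : ℤ) - 1) := by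
    intro v
    refine Finset.sum_nonneg fun w hw => ?_
    have := hlam v w (Ne.symm (Finset.ne_of_mem_erase hw))
    have : (1 : ℤ) ≤ (S v ∩ S w).card := by exact_mod_cast this
    linarith
  -- injectivity of the incidence map
  have hinj : ∀ y : Fin n → ℝ, (∀ e ∈ E, ∑ v ∈ e, y v = 0) → y = 0 := by
    intro y hy
    have h0 : ∑ e ∈ E, (∑ v ∈ e, y v) * (∑ w ∈ e, y w) = 0 :=
      Finset.sum_eq_zero fun e he => by rw [hy e he]; ring
    have h1 : ∑ e ∈ E, (∑ v ∈ e, y v) * (∑ w ∈ e, y w) =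
        ∑ v, ∑ w, y v * y w * ((S v ∩ S w).card : ℝ) := by
      have e1 : ∀ e ∈ E, (∑ v ∈ e, y v) * (∑ w ∈ e, y w) =
          ∑ v, ∑ w, y v * y w * (if v ∈ e ∧ w ∈ e then 1 else 0) := by
        intro e _
        rw [Finset.sum_mul_sum]
        have a1 : ∀ v, ∑ w, y v * y w * (if v ∈ e ∧ w ∈ e then (1 : ℝ) else 0) =
            if v ∈ e then ∑ w ∈ e, y v * y w else 0 := by
          intro v
          by_cases hv : v ∈ e
          · simp only [hv, true_and, if_true, mul_ite, mul_one, mul_zero]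
            rw [← Finset.sum_filter]
            congr 1
            ext w; simp
          · simp [hv]
        simp only [a1]
        rw [← Finset.sum_filter]
        congr 1
        ext w; simp
      rw [Finset.sum_congr rfl e1, Finset.sum_comm]
      refine Finset.sum_congr rfl fun v _ => ?_
      rw [Finset.sum_comm]
      refine Finset.sum_congr rfl fun w _ => ?_
      rw [← Finset.mul_sum]
      congr 1
      rw [← Finset.sum_filter, Finset.sum_const, nsmul_eq_mul, mul_one]
      congr 2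
      ext e
      simp only [hS, Finset.mem_inter, Finset.mem_filter]
      tauto
    rw [h1] at h0
    -- lower bound of the quadratic form
    have h2 : ∀ v, ∑ w, y v * y w * ((S v ∩ S w).card : ℝ) =
        y v * ∑ w, y w + ((Δ : ℝ) - 1) * (y v) ^ 2 +
          ∑ w ∈ univ.erase v, y v * y w * (((S v ∩ S w).card : ℝ) - 1) := by
      intro v
      rw [← Finset.add_sum_erase univ _ (Finset.mem_univ v), Finset.inter_self, hdeg v]
      rw [← Finset.add_sum_erase univ y (Finset.mem_univ v), mul_add, Finset.mul_sum]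
      have : ∑ w ∈ univ.erase v, y v * y w * ((S v ∩ S w).card : ℝ) =
          ∑ w ∈ univ.erase v, y v * y w +
            ∑ w ∈ univ.erase v, y v * y w * (((S v ∩ S w).card : ℝ) - 1) := by
        rw [← Finset.sum_add_distrib]
        refine Finset.sum_congr rfl fun w _ => by ring
      rw [this]; ring
    have h3 : ∀ v, -(1 / 2) * ∑ w ∈ univ.erase v, (((S v ∩ S w).card : ℝ) - 1) *
        ((y v) ^ 2 + (y w) ^ 2) ≤
          ∑ w ∈ univ.erase v, y v * y w * (((S v ∩ S w).card : ℝ) - 1) := by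
      intro v
      rw [Finset.mul_sum]
      refine Finset.sum_le_sum fun w hw => ?_
      have hl := hlam v w (Ne.symm (Finset.ne_of_mem_erase hw))
      have hl' : (1 : ℝ) ≤ (S v ∩ S w).card := by exact_mod_cast hl
      have hsq : 0 ≤ (y v + y w) ^ 2 := sq_nonneg _
      nlinarith
    have hexc : ∀ v : Fin n, ∑ w ∈ univ.erase v, (((S v ∩ S w).card : ℝ) - 1) ≤ k := by
      intro v
      have h := hdefexc v
      have h' := hdefnn v
      have : ∑ w ∈ univ.erase v, (((S v ∩ S w).card : ℤ) - 1) ≤ k := by linarith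
      have h'' : ((∑ w ∈ univ.erase v, (((S v ∩ S w).card : ℤ) - 1) : ℤ) : ℝ) ≤ ((k : ℤ) : ℝ) :=
        by exact_mod_cast this
      push_cast at h''
      exact h''
    -- symmetric sum
    have h4 : ∑ v, ∑ w ∈ univ.erase v, (((S v ∩ S w).card : ℝ) - 1) *
        ((y v) ^ 2 + (y w) ^ 2) =
        2 * ∑ v, (y v) ^ 2 * ∑ w ∈ univ.erase v, (((S v ∩ S w).card : ℝ) - 1) := by
      have a1 : ∀ v, ∑ w ∈ univ.erase v, (((S v ∩ S w).card : ℝ) - 1) *
          ((y v) ^ 2 + (y w) ^ 2) =
          ∑ w, (if w ≠ v then (((S v ∩ S w).card : ℝ) - 1) * (y v) ^ 2 else 0) +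
          ∑ w, (if w ≠ v then (((S v ∩ S w).card : ℝ) - 1) * (y w) ^ 2 else 0) := by
        intro v
        rw [← Finset.sum_filter, ← Finset.sum_filter, Finset.filter_ne', ← Finset.sum_add_distrib]
        refine Finset.sum_congr rfl fun w _ => by ring
      rw [Finset.sum_congr rfl fun v _ => a1 v, Finset.sum_add_distrib]
      have a2 : ∑ v, ∑ w, (if w ≠ v then (((S v ∩ S w).card : ℝ) - 1) * (y w) ^ 2 else 0) =
          ∑ v, ∑ w, (if w ≠ v then (((S v ∩ S w).card : ℝ) - 1) * (y v) ^ 2 else 0) := by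
        rw [Finset.sum_comm]
        refine Finset.sum_congr rfl fun v _ => Finset.sum_congr rfl fun w _ => ?_
        rw [Finset.inter_comm]
        simp only [ne_comm]
      rw [a2, ← two_mul]
      congr 1
      refine Finset.sum_congr rfl fun v _ => ?_
      rw [← Finset.sum_filter, Finset.filter_ne', Finset.mul_sum]
      refine Finset.sum_congr rfl fun w _ => by ring
    have h5 : 0 ≥ (∑ v, y v) ^ 2 + ((Δ : ℝ) - 1 - k) * ∑ v, (y v) ^ 2 := by
      have b1 : ∑ v, ∑ w, y v * y w * ((S v ∩ S w).card : ℝ) ≥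
          ∑ v, (y v * ∑ w, y w + ((Δ : ℝ) - 1) * (y v) ^ 2 +
            -(1 / 2) * ∑ w ∈ univ.erase v, (((S v ∩ S w).card : ℝ) - 1) *
              ((y v) ^ 2 + (y w) ^ 2)) := by
        refine Finset.sum_le_sum fun v _ => ?_
        rw [h2 v]
        have := h3 v
        linarith
      rw [h0, Finset.sum_add_distrib, Finset.sum_add_distrib, ← Finset.sum_mul,
        ← Finset.mul_sum, ← Finset.mul_sum, h4] at b1
      have b2 : ∑ v, (y v) ^ 2 * ∑ w ∈ univ.erase v, (((S v ∩ S w).card : ℝ) - 1) ≤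
          ∑ v, (y v) ^ 2 * (k : ℝ) :=
        Finset.sum_le_sum fun v _ => mul_le_mul_of_nonneg_left (hexc v) (sq_nonneg _)
      rw [← Finset.sum_mul] at b2
      nlinarith
    have h6 : (1 : ℝ) ≤ (Δ : ℝ) - 1 - k := by
      have : ((k + 2 : ℕ) : ℝ) ≤ Δ := by exact_mod_cast hkΔ
      push_cast at this
      linarith
    have h7 : ∑ v, (y v) ^ 2 ≤ 0 := by
      have h8 : 0 ≤ ∑ v, (y v) ^ 2 := Finset.sum_nonneg fun v _ => sq_nonneg _
      nlinarith [sq_nonneg (∑ v, y v)]
    funext v
    have h8 := (Finset.sum_eq_zero_iff_of_nonneg (fun v _ => sq_nonneg (y v))).1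
      (le_antisymm h7 (Finset.sum_nonneg fun v _ => sq_nonneg (y v))) v (Finset.mem_univ v)
    simpa using h8
  have hnE : n ≤ E.card := by
    let L : (Fin n → ℝ) →ₗ[ℝ] ({e // e ∈ E} → ℝ) :=
      { toFun := fun y e => ∑ v ∈ e.1, y v
        map_add' := by intro x y; funext e; simp [Finset.sum_add_distrib]
        map_smul' := by intro c x; funext e; simp [Finset.mul_sum] }
    have hL : Function.Injective L := by
      rw [← LinearMap.ker_eq_bot, LinearMap.ker_eq_bot']
      intro y hy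
      exact hinj y fun e he => congrFun hy ⟨e, he⟩
    have := LinearMap.finrank_le_finrank_of_injective hL
    rw [Module.finrank_fintype_fun_eq_card, Module.finrank_fintype_fun_eq_card] at this
    simpa using this
  -- counting
  have hswap : ∀ φ : Finset (Fin n) → ℤ, ∑ v, ∑ e ∈ S v, φ e = ∑ e ∈ E, (e.card : ℤ) * φ e := by
    intro φ
    simp only [hS, Finset.sum_filter]
    rw [Finset.sum_comm]
    refine Finset.sum_congr rfl fun e _ => ?_
    rw [← Finset.sum_filter, Finset.sum_const, nsmul_eq_mul]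
    congr 2
    congr 1
    ext v; simp
  have hcard : ∑ e ∈ E, (e.card : ℤ) = Δ * n := by
    have h := hswap (fun _ => 1)
    simp only [Finset.sum_const, nsmul_eq_mul, mul_one] at h
    rw [← h]
    simp [hdeg, mul_comm]
  have hdefsum : ∑ e ∈ E, (e.card : ℤ) * ((r : ℤ) - e.card) ≤ k * n := by
    rw [← hswap]
    calc ∑ v, ∑ e ∈ S v, ((r : ℤ) - e.card) ≤ ∑ _v : Fin n, (k : ℤ) :=
          Finset.sum_le_sum fun v _ => by
            have := hdefexc v
            have := hexcnn v
            linarith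
      _ = k * n := by simp [mul_comm]
  have hmin : ∀ e ∈ E, (r : ℤ) - k ≤ e.card := by
    intro e he
    obtain ⟨v, hv⟩ := hE.nonempty e he
    have h1 := hdefexc v
    have h2 := hexcnn v
    have hev : e ∈ S v := Finset.mem_filter.2 ⟨he, hv⟩
    have h3 : (r : ℤ) - e.card ≤ ∑ e ∈ S v, ((r : ℤ) - e.card) := by
      refine Finset.single_le_sum (f := fun e : Finset (Fin n) => (r : ℤ) - e.card) ?_ hev
      intro e' he'
      have := hE.rank e' (Finset.mem_filter.1 he').1
      have : (e'.card : ℤ) ≤ r := by exact_mod_cast this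
      show 0 ≤ (r : ℤ) - e'.card
      linarith
    linarith
  have hfinal : ((r : ℤ) - k) * ∑ e ∈ E, ((r : ℤ) - e.card) ≤ k * n := by
    refine le_trans ?_ hdefsum
    rw [Finset.mul_sum]
    refine Finset.sum_le_sum fun e he => ?_
    have h1 := hmin e he
    have h2 : (0 : ℤ) ≤ (r : ℤ) - e.card := by
      have := hE.rank e he
      have : (e.card : ℤ) ≤ r := by exact_mod_cast this
      linarith
    exact mul_le_mul_of_nonneg_right h1 h2
  rw [Finset.sum_sub_distrib, hcard, Finset.sum_const, nsmul_eq_mul] at hfinal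
  have hn0 : 1 ≤ n := by
    have h1 : Δ * 1 ≤ Δ * (r - 1) := Nat.mul_le_mul_left _ (by omega)
    omega
  have hnz : (1 : ℤ) ≤ n := by exact_mod_cast hn0
  have hnEz : (n : ℤ) ≤ E.card := by exact_mod_cast hnE
  have hrk : (0 : ℤ) < (r : ℤ) - k := by
    have : ((k + 2 : ℕ) : ℤ) ≤ Δ := by exact_mod_cast hkΔ
    have h' : (Δ : ℤ) < r := by exact_mod_cast hΔ
    push_cast at this
    linarith
  have hrΔ : (0 : ℤ) < (r : ℤ) - Δ := by
    have h' : (Δ : ℤ) < r := by exact_mod_cast hΔ
    linarith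
  have hA : ((r : ℤ) - k) * (((r : ℤ) - Δ) * n) ≤ k * n := by
    refine le_trans ?_ hfinal
    apply mul_le_mul_of_nonneg_left _ hrk.le
    have : (r : ℤ) * n ≤ r * E.card := mul_le_mul_of_nonneg_left hnEz (by positivity)
    linarith
  have hB : ((r : ℤ) - k) * ((r : ℤ) - Δ) ≤ k := by
    have : (((r : ℤ) - k) * ((r : ℤ) - Δ)) * n ≤ k * n := by linarith
    exact le_of_mul_le_mul_right this (by linarith)
  have hC : ((k * (r - Δ + 1) : ℕ) : ℤ) ≤ ((r * (r - Δ) : ℕ) : ℤ) := by exact_mod_cast hkc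
  push_cast [Nat.cast_sub hΔ.le] at hC
  -- so we are in the case of equality
  have hD : ((r : ℤ) - k) * ((r : ℤ) - Δ) = k := by nlinarith
  have hkpos : (0 : ℤ) < k := by
    rw [← hD]
    exact mul_pos hrk hrΔ
  -- every term vanishes
  have hterm : ∑ e ∈ E, ((e.card : ℤ) - (r - k)) * ((r : ℤ) - e.card) ≤ 0 := by
    have h1 : ∑ e ∈ E, ((e.card : ℤ) - (r - k)) * ((r : ℤ) - e.card) =
        ∑ e ∈ E, (e.card : ℤ) * ((r : ℤ) - e.card) - (r - k) * ∑ e ∈ E, ((r : ℤ) - e.card) := by
      rw [Finset.mul_sum, ← Finset.sum_sub_distrib]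
      refine Finset.sum_congr rfl fun e _ => by ring
    have h2 : ((r : ℤ) - k) * (((r : ℤ) - Δ) * n) ≤
        ((r : ℤ) - k) * ∑ e ∈ E, ((r : ℤ) - e.card) := by
      rw [Finset.sum_sub_distrib, hcard, Finset.sum_const, nsmul_eq_mul]
      apply mul_le_mul_of_nonneg_left _ hrk.le
      have : (r : ℤ) * n ≤ r * E.card := mul_le_mul_of_nonneg_left hnEz (by positivity)
      linarith
    have h3 : ((r : ℤ) - k) * (((r : ℤ) - Δ) * n) = k * n := by
      rw [← mul_assoc, hD]
    rw [h1]
    linarith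
  have hnn : ∀ e ∈ E, 0 ≤ ((e.card : ℤ) - (r - k)) * ((r : ℤ) - e.card) := by
    intro e he
    have h1 := hmin e he
    have h2 : (e.card : ℤ) ≤ r := by exact_mod_cast hE.rank e he
    exact mul_nonneg (by linarith) (by linarith)
  have hzero : ∀ e ∈ E, ((e.card : ℤ) - (r - k)) * ((r : ℤ) - e.card) = 0 :=
    (Finset.sum_eq_zero_iff_of_nonneg hnn).1 (le_antisymm hterm (Finset.sum_nonneg hnn))
  have hdefeq : ∀ v : Fin n, ∑ e ∈ S v, ((r : ℤ) - e.card) = k := by
    have h1 : ∀ v ∈ (Finset.univ : Finset (Fin n)),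
        0 ≤ (k : ℤ) - ∑ e ∈ S v, ((r : ℤ) - e.card) := by
      intro v _
      have := hdefexc v
      have := hexcnn v
      linarith
    have h2 : ∑ v : Fin n, ((k : ℤ) - ∑ e ∈ S v, ((r : ℤ) - e.card)) ≤ 0 := by
      rw [Finset.sum_sub_distrib, hswap]
      have h3 : ((r : ℤ) - k) * (((r : ℤ) - Δ) * n) = k * n := by
        rw [← mul_assoc, hD]
      have h4 : ((r : ℤ) - k) * (((r : ℤ) - Δ) * n) ≤
          ∑ e ∈ E, (e.card : ℤ) * ((r : ℤ) - e.card) := by
        have h5 : ((r : ℤ) - k) * ∑ e ∈ E, ((r : ℤ) - e.card) ≤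
            ∑ e ∈ E, (e.card : ℤ) * ((r : ℤ) - e.card) := by
          rw [Finset.mul_sum]
          refine Finset.sum_le_sum fun e he => ?_
          have h1 := hmin e he
          have h2 : (e.card : ℤ) ≤ r := by exact_mod_cast hE.rank e he
          exact mul_le_mul_of_nonneg_right h1 (by linarith)
        refine le_trans ?_ h5
        rw [Finset.sum_sub_distrib, hcard, Finset.sum_const, nsmul_eq_mul]
        apply mul_le_mul_of_nonneg_left _ hrk.le
        have : (r : ℤ) * n ≤ r * E.card := mul_le_mul_of_nonneg_left hnEz (by positivity)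
        linarith
      have h6 : ∑ _v : Fin n, (k : ℤ) = k * n := by simp [mul_comm]
      linarith
    intro v
    have h3 := (Finset.sum_eq_zero_iff_of_nonneg h1).1
      (le_antisymm h2 (Finset.sum_nonneg h1)) v (Finset.mem_univ v)
    linarith
  -- the small edges partition the vertex set
  have hphi : ∀ e ∈ E, (r : ℤ) - e.card = k * (if (e.card : ℤ) = r then 0 else 1) := by
    intro e he
    have h1 := hzero e he
    by_cases h : (e.card : ℤ) = r
    · simp [h]
    · rw [if_neg h]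
      rcases mul_eq_zero.1 h1 with h2 | h2
      · linarith
      · exact absurd (by linarith) h
  have hone : ∀ v : Fin n, ∑ e ∈ S v, (if (e.card : ℤ) = r then (0 : ℤ) else 1) = 1 := by
    intro v
    have h1 := hdefeq v
    rw [Finset.sum_congr rfl fun e he => hphi e (Finset.mem_filter.1 he).1, ← Finset.mul_sum] at h1
    have h2 : (k : ℤ) * (∑ e ∈ S v, (if (e.card : ℤ) = r then (0 : ℤ) else 1)) = k * 1 := by
      rw [h1, mul_one]
    exact mul_left_cancel₀ hkpos.ne' h2
  have hdvd : ((r : ℤ) - k) ∣ n := by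
    have h1 := hswap (fun e => if (e.card : ℤ) = r then (0 : ℤ) else 1)
    simp only [hone] at h1
    have h2 : ∑ e ∈ E, (e.card : ℤ) * (if (e.card : ℤ) = r then (0 : ℤ) else 1) =
        ((r : ℤ) - k) * ∑ e ∈ E, (if (e.card : ℤ) = r then (0 : ℤ) else 1) := by
      rw [Finset.mul_sum]
      refine Finset.sum_congr rfl fun e he => ?_
      have h3 := hphi e he
      by_cases h : (e.card : ℤ) = r
      · simp [h]
      · rw [if_neg h] at h3 ⊢
        linarith
    rw [h2] at h1
    refine ⟨∑ e ∈ E, (if (e.card : ℤ) = r then (0 : ℤ) else 1), ?_⟩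
    rw [← h1]
    simp
  -- arithmetic
  obtain ⟨c, hc⟩ := hdvd
  have hk2 : (k : ℤ) + 2 ≤ Δ := by exact_mod_cast hkΔ
  have hnk : (n : ℤ) + k = Δ * ((r : ℤ) - 1) + 1 := by
    have h2 : ((n + k : ℕ) : ℤ) = ((Δ * (r - 1) + 1 : ℕ) : ℤ) := by rw [hk]
    have hr1 : 1 ≤ r := by omega
    push_cast [Nat.cast_sub hr1] at h2
    exact h2
  obtain ⟨j, hj⟩ : ∃ j : ℤ, j = (r : ℤ) - k := ⟨_, rfl⟩
  obtain ⟨s, hs⟩ : ∃ s : ℤ, s = (r : ℤ) - Δ := ⟨_, rfl⟩
  rw [← hj] at hc hrk
  rw [← hj, ← hs] at hD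
  rw [← hs] at hrΔ
  have e1 : (r : ℤ) = j * (s + 1) := by linarith
  have e2 : (Δ : ℤ) = j * (s + 1) - s := by linarith
  have e3 : s + 1 = j * (c - (j * (s + 1) ^ 2 - (s + 1) - s * (s + 1) - s)) := by
    rw [hc, ← hD, e2, e1] at hnk
    linarith
  have e4 : s + 2 ≤ j := by linarith
  have hdv : j ∣ s + 1 := ⟨c - (j * (s + 1) ^ 2 - (s + 1) - s * (s + 1) - s), e3⟩
  have := Int.le_of_dvd (by linarith) hdv
  linarith

end Pool.Agent.Helper99.NMax
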