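import Mathlib
import Pool.Agent.Helper99.NMax.Defs

/-!
Small cases: complete graphs (`r ≤ 2`) and `n(5,1,3) = 10`.
-/

namespace Pool.Agent.Helper99.NMax

open Finset

lemma good_one (D : ℕ) : Good D 1 1 := by
  refine ⟨∅, ?_, ?_, ?_, ?_⟩
  · simp
  · intro x y hxy
    exact absurd (Subsingleton.elim x y) hxy
  · intro x; simp
  · simp

/-- The complete graph. -/
lemma good_two (D : ℕ) : Good D 2 (D + 1) := by
  classical
  refine good_of_family (V := Fin (D + 1)) (ι := {s : Finset (Fin (D + 1)) // s.card = 2})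
    (Function.Embedding.refl _) (fun s => s.1) ?_ ?_ ?_
  · intro x y hxy
    exact ⟨⟨{x, y}, Finset.card_pair hxy⟩, by simp, by simp⟩
  · intro x
    have h1 : (Finset.univ.filter (fun i : {s : Finset (Fin (D + 1)) // s.card = 2} =>
        x ∈ i.1)).card ≤ ((Finset.univ : Finset (Fin (D + 1))).erase x).card := by
      have hsub : (Finset.univ.filter (fun i : {s : Finset (Fin (D + 1)) // s.card = 2} =>
          x ∈ i.1)).image Subtype.val ⊆
          (((Finset.univ : Finset (Fin (D + 1))).erase x).image (fun y => ({x, y} :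
            Finset (Fin (D + 1))))) := by
        intro s hs
        obtain ⟨⟨s', hs'⟩, h, rfl⟩ := Finset.mem_image.1 hs
        have hx : x ∈ s' := (Finset.mem_filter.1 h).2
        obtain ⟨a, b, hab, rfl⟩ := Finset.card_eq_two.1 hs'
        rw [Finset.mem_image]
        rcases Finset.mem_insert.1 hx with rfl | hx
        · exact ⟨b, by simp [Ne.symm hab], rfl⟩
        · rw [Finset.mem_singleton] at hx
          subst hx
          exact ⟨a, by simp [hab], Finset.pair_comm _ _⟩
      have h2 := Finset.card_le_card hsub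
      rw [Finset.card_image_of_injective _ Subtype.val_injective] at h2
      exact le_trans h2 Finset.card_image_le
    rw [Finset.card_erase_of_mem (Finset.mem_univ _), Finset.card_univ, Fintype.card_fin] at h1
    omega
  · rintro ⟨s, hs⟩
    exact hs.le

set_option maxRecDepth 100000 in
/-- A `(5,1,3)`-hypergraph with ten vertices. -/
lemma good_5_3 : Good 5 3 10 := by
  refine ⟨{{2, 4, 7}, {1, 5, 8}, {1, 4, 9}, {6, 7, 8}, {0, 3, 4}, {0, 1, 7}, {3, 5},
    {4, 5, 6}, {2, 3, 7}, {1, 3, 9}, {1, 2, 6}, {0, 4, 8}, {5, 7, 9}, {3, 6, 8}, {0, 2, 5},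
    {0, 6, 9}, {2, 8, 9}}, ?_, ?_, ?_, ?_⟩
  · decide
  · decide
  · decide
  · decide

/-- There is no `(5,1,3)`-hypergraph with eleven vertices. -/
lemma not_good_5_3 : ¬ Good 5 3 11 := by
  classical
  rintro ⟨E, hE⟩
  set S : Fin 11 → Finset (Finset (Fin 11)) := fun v => E.filter (fun e => v ∈ e) with hS
  have hcov : ∀ v : Fin 11, 10 ≤ ∑ e ∈ S v, (e.card - 1) := by
    intro v
    have hsub : (Finset.univ.erase v : Finset (Fin 11)) ⊆ (S v).biUnion (fun e => e.erase v) := by
      intro y hy
      obtain ⟨e, he, hx, hy'⟩ := hE.covers v y (Finset.ne_of_mem_erase hy).symm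
      rw [Finset.mem_biUnion]
      exact ⟨e, Finset.mem_filter.2 ⟨he, hx⟩, Finset.mem_erase.2 ⟨Finset.ne_of_mem_erase hy, hy'⟩⟩
    have h1 := Finset.card_le_card hsub
    rw [Finset.card_erase_of_mem (Finset.mem_univ v), Finset.card_univ, Fintype.card_fin] at h1
    refine le_trans h1 (le_trans Finset.card_biUnion_le (le_of_eq ?_))
    refine Finset.sum_congr rfl fun e he => ?_
    exact Finset.card_erase_of_mem (Finset.mem_filter.1 he).2
  have hle : ∀ v : Fin 11, ∀ e ∈ S v, e.card - 1 ≤ 2 := by
    intro v e he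
    have := hE.rank e (Finset.mem_filter.1 he).1
    omega
  have hdeg : ∀ v : Fin 11, (S v).card = 5 := by
    intro v
    have h1 := hE.degree v
    have h2 := Finset.sum_le_card_nsmul (S v) _ 2 (hle v)
    have h3 := hcov v
    rw [smul_eq_mul] at h2
    have h4 : (S v).card ≤ 5 := h1
    omega
  have hfull : ∀ v : Fin 11, ∀ e ∈ S v, e.card = 3 := by
    intro v e he
    by_contra hne
    have h1 : e.card - 1 < 2 := by
      have := hE.rank e (Finset.mem_filter.1 he).1
      omega
    have h2 : ∑ e ∈ S v, (e.card - 1) < ∑ _e ∈ S v, 2 :=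
      Finset.sum_lt_sum (hle v) ⟨e, he, h1⟩
    rw [Finset.sum_const, hdeg v] at h2
    have := hcov v
    simp at h2
    omega
  have hall : ∀ e ∈ E, e.card = 3 := by
    intro e he
    obtain ⟨v, hv⟩ := hE.nonempty e he
    exact hfull v e (Finset.mem_filter.2 ⟨he, hv⟩)
  have hcount : ∑ v : Fin 11, (S v).card = ∑ e ∈ E, e.card := by
    simp only [hS, Finset.card_filter]
    rw [Finset.sum_comm]
    refine Finset.sum_congr rfl fun e _ => ?_
    rw [← Finset.card_filter]
    congr 1
    ext v; simp
  rw [Finset.sum_congr rfl fun v _ => hdeg v, Finset.sum_congr rfl fun e he => hall e he] at hcount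
  simp at hcount
  omega

end Pool.Agent.Helper99.NMax
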