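import Mathlib

/-!
Basic optimal solutions of the fractional matching problem of a finite set system.
-/

namespace Pool.Agent.Helper99.NMax

open Finset Filter Topology

variable {ι β : Type} [Fintype ι] [DecidableEq ι] [Fintype β] [DecidableEq β]

set_option linter.unusedSectionVars false

/-- Fractional matchings of the set system `A`. -/
def Feas (A : ι → Finset β) : Set (ι → ℝ) :=
  {w | (∀ i, 0 ≤ w i) ∧ ∀ e : β, ∑ i ∈ univ.filter (fun i => e ∈ A i), w i ≤ 1}

lemma isClosed_feas (A : ι → Finset β) : IsClosed (Feas A) := by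
  have h : Feas A = (⋂ i, {w : ι → ℝ | 0 ≤ w i}) ∩
      (⋂ e : β, {w : ι → ℝ | ∑ i ∈ univ.filter (fun i => e ∈ A i), w i ≤ 1}) := by
    ext w; simp [Feas]
  rw [h]
  refine IsClosed.inter ?_ ?_
  · exact isClosed_iInter fun i => isClosed_le continuous_const (continuous_apply i)
  · exact isClosed_iInter fun e => isClosed_le
      (continuous_finsetSum _ fun i _ => continuous_apply i) continuous_const

lemma feas_subset (A : ι → Finset β) (hne : ∀ i, (A i).Nonempty) :
    Feas A ⊆ Set.Icc (0 : ι → ℝ) 1 := by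
  intro w hw
  refine ⟨fun i => hw.1 i, fun i => ?_⟩
  obtain ⟨e, he⟩ := hne i
  refine le_trans ?_ (hw.2 e)
  exact Finset.single_le_sum (f := w) (fun j _ => hw.1 j) (by simp [he])

lemma isCompact_feas (A : ι → Finset β) (hne : ∀ i, (A i).Nonempty) : IsCompact (Feas A) :=
  isCompact_Icc.of_isClosed_subset (isClosed_feas A) (feas_subset A hne)

/-- The sum functional. -/
def tot (w : ι → ℝ) : ℝ := ∑ i, w i

lemma continuous_tot : Continuous (tot : (ι → ℝ) → ℝ) :=
  continuous_finsetSum _ fun i _ => continuous_apply i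

lemma eventually_feas (A : ι → Finset β) {w z : ι → ℝ} (hw : w ∈ Feas A)
    (hz : ∀ i, w i = 0 → z i = 0)
    (hz' : ∀ e : β, ∑ i ∈ univ.filter (fun i => e ∈ A i), w i = 1 →
      ∑ i ∈ univ.filter (fun i => e ∈ A i), z i = 0) :
    ∀ᶠ ε in 𝓝 (0 : ℝ), w + ε • z ∈ Feas A := by
  have h1 : ∀ᶠ ε in 𝓝 (0 : ℝ), ∀ i, 0 ≤ (w + ε • z) i := by
    rw [Filter.eventually_all]
    intro i
    by_cases hi : w i = 0
    · refine Filter.Eventually.of_forall fun ε => ?_
      simp [hi, hz i hi]
    · have hpos : 0 < w i := lt_of_le_of_ne (hw.1 i) (Ne.symm hi)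
      have hc : Continuous fun ε : ℝ => (w + ε • z) i := by
        simp only [Pi.add_apply, Pi.smul_apply, smul_eq_mul]
        fun_prop
      have h0 : (0 : ℝ) < (w + (0 : ℝ) • z) i := by simpa using hpos
      exact (hc.tendsto 0).eventually (lt_mem_nhds h0) |>.mono fun ε h => le_of_lt h
  have h2 : ∀ᶠ ε in 𝓝 (0 : ℝ), ∀ e : β,
      ∑ i ∈ univ.filter (fun i => e ∈ A i), (w + ε • z) i ≤ 1 := by
    rw [Filter.eventually_all]
    intro e
    have hexp : ∀ ε : ℝ, ∑ i ∈ univ.filter (fun i => e ∈ A i), (w + ε • z) i =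
        ∑ i ∈ univ.filter (fun i => e ∈ A i), w i +
          ε * ∑ i ∈ univ.filter (fun i => e ∈ A i), z i := by
      intro ε
      simp only [Pi.add_apply, Pi.smul_apply, smul_eq_mul, Finset.sum_add_distrib,
        Finset.mul_sum]
    by_cases he : ∑ i ∈ univ.filter (fun i => e ∈ A i), w i = 1
    · refine Filter.Eventually.of_forall fun ε => ?_
      rw [hexp, he, hz' e he]; simp
    · have hlt := lt_of_le_of_ne (hw.2 e) he
      have hc : Continuous fun ε : ℝ => ∑ i ∈ univ.filter (fun i => e ∈ A i), w i +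
          ε * ∑ i ∈ univ.filter (fun i => e ∈ A i), z i := by fun_prop
      have h0 : ∑ i ∈ univ.filter (fun i => e ∈ A i), w i +
          (0 : ℝ) * ∑ i ∈ univ.filter (fun i => e ∈ A i), z i < 1 := by simpa using hlt
      exact (hc.tendsto 0).eventually (gt_mem_nhds h0) |>.mono fun ε h => by
        rw [hexp]; exact le_of_lt h
  filter_upwards [h1, h2] with ε h1 h2 using ⟨h1, h2⟩

/-- There is an optimal fractional matching whose support is not larger than its set of saturated
points. -/
theorem exists_basic (A : ι → Finset β) (hne : ∀ i, (A i).Nonempty) :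
    ∃ w ∈ Feas A, (∀ w' ∈ Feas A, ∑ i, w' i ≤ ∑ i, w i) ∧
      (univ.filter (fun i => w i ≠ 0)).card ≤
        (univ.filter (fun e : β =>
          ∑ i ∈ univ.filter (fun i => e ∈ A i), w i = 1)).card := by
  classical
  have hC := isCompact_feas A hne
  have h0 : (0 : ι → ℝ) ∈ Feas A := by
    refine ⟨fun i => le_rfl, fun e => ?_⟩
    simp
  obtain ⟨w₀, hw₀, hmax⟩ := hC.exists_isMaxOn ⟨0, h0⟩ (continuous_tot (ι := ι)).continuousOn
  set F : Set (ι → ℝ) := Feas A ∩ {w | tot w₀ ≤ tot w} with hF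
  have hFc : IsCompact F := hC.inter_right (isClosed_le continuous_const continuous_tot)
  have hFn : F.Nonempty := ⟨w₀, hw₀, le_refl (tot w₀)⟩
  obtain ⟨w, hw⟩ := hFc.extremePoints_nonempty hFn
  rw [mem_extremePoints] at hw
  obtain ⟨⟨hwf, hwm⟩, hext⟩ := hw
  refine ⟨w, hwf, fun w' hw' => le_trans (hmax hw') hwm, ?_⟩
  by_contra hlt
  push Not at hlt
  set s := univ.filter (fun i => w i ≠ 0) with hs
  set t := univ.filter (fun e : β => ∑ i ∈ univ.filter (fun i => e ∈ A i), w i = 1) with ht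
  let L : ((i : s) → ℝ) →ₗ[ℝ] ((e : t) → ℝ) :=
    { toFun := fun z e => ∑ i : s, if (e : β) ∈ A i then z i else 0
      map_add' := by
        intro x y
        funext e
        simp only [Pi.add_apply]
        rw [← Finset.sum_add_distrib]
        refine Finset.sum_congr rfl fun i _ => ?_
        split_ifs <;> simp
      map_smul' := by
        intro c x
        funext e
        simp only [Pi.smul_apply, smul_eq_mul, RingHom.id_apply]
        rw [Finset.mul_sum]
        refine Finset.sum_congr rfl fun i _ => ?_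
        split_ifs <;> simp }
  have hker : LinearMap.ker L ≠ ⊥ := by
    apply LinearMap.ker_ne_bot_of_finrank_lt
    rw [Module.finrank_fintype_fun_eq_card, Module.finrank_fintype_fun_eq_card]
    simpa using hlt
  obtain ⟨z₀, hz₀, hz₀ne⟩ := Submodule.exists_mem_ne_zero_of_ne_bot hker
  set z : ι → ℝ := fun i => if h : i ∈ s then z₀ ⟨i, h⟩ else 0 with hzdef
  have hz1 : ∀ i, w i = 0 → z i = 0 := by
    intro i hi
    have : i ∉ s := by simp [hs, hi]
    simp [hzdef, this]
  have hz2 : ∀ e : β, ∑ i ∈ univ.filter (fun i => e ∈ A i), w i = 1 →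
      ∑ i ∈ univ.filter (fun i => e ∈ A i), z i = 0 := by
    intro e he
    have het : e ∈ t := by simp [ht, he]
    have h := congrFun (LinearMap.mem_ker.1 hz₀) ⟨e, het⟩
    simp only [L, LinearMap.coe_mk, AddHom.coe_mk, Pi.zero_apply] at h
    rw [← h]
    have e1 : ∑ i ∈ univ.filter (fun i => e ∈ A i), z i
        = ∑ i, if e ∈ A i then z i else 0 := by
      rw [Finset.sum_filter]
    rw [e1]
    have e2 : ∑ i, (if e ∈ A i then z i else 0) = ∑ i ∈ s, (if e ∈ A i then z i else 0) := by
      symm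
      apply Finset.sum_subset (Finset.subset_univ s)
      intro i _ hi
      simp [hzdef, hi]
    rw [e2, ← Finset.sum_coe_sort s]
    refine Finset.sum_congr rfl fun i _ => ?_
    simp [hzdef]
  have hev1 := eventually_feas A hwf hz1 hz2
  have hev2 : ∀ᶠ ε in 𝓝 (0 : ℝ), w + ε • (-z) ∈ Feas A := by
    apply eventually_feas A hwf
    · intro i hi
      simp [hz1 i hi]
    · intro e he
      simp only [Pi.neg_apply, Finset.sum_neg_distrib, hz2 e he, neg_zero]
  have hev3 := (hev1.and hev2)
  have hev4 : ∀ᶠ ε in 𝓝[>] (0 : ℝ), (w + ε • z ∈ Feas A ∧ w + ε • (-z) ∈ Feas A) ∧ 0 < ε :=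
    (hev3.filter_mono nhdsWithin_le_nhds).and self_mem_nhdsWithin
  obtain ⟨ε, ⟨hp, hm⟩, hε⟩ := hev4.exists
  have t1 : tot (w + ε • z) ≤ tot w₀ := hmax hp
  have t2 : tot (w + ε • (-z)) ≤ tot w₀ := hmax hm
  have t3 : tot w₀ ≤ tot w := hwm
  have t4 : tot (w + ε • z) + tot (w + ε • (-z)) = 2 * tot w := by
    simp only [tot, Pi.add_apply, Pi.smul_apply, Pi.neg_apply, smul_eq_mul]
    rw [← Finset.sum_add_distrib, Finset.mul_sum]
    refine Finset.sum_congr rfl fun i _ => by ring
  have m1 : w + ε • z ∈ F := ⟨hp, by show tot w₀ ≤ _; linarith⟩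
  have m2 : w + ε • (-z) ∈ F := ⟨hm, by show tot w₀ ≤ _; linarith⟩
  have hseg : w ∈ openSegment ℝ (w + ε • z) (w + ε • (-z)) := by
    refine ⟨1 / 2, 1 / 2, by norm_num, by norm_num, by norm_num, ?_⟩
    funext i
    simp only [Pi.add_apply, Pi.smul_apply, Pi.neg_apply, smul_eq_mul]
    ring
  have hfin := (hext _ m1 _ m2 hseg).1
  have hz0 : z = 0 := by
    have : ε • z = 0 := by simpa using hfin
    rcases smul_eq_zero.1 this with h | h
    · exact absurd h hε.ne'
    · exact h
  apply hz₀ne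
  funext i
  have := congrFun hz0 i
  simpa [hzdef] using this

end Pool.Agent.Helper99.NMax
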