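import Mathlib
import Pool.Agent.Helper99.NMax.LP

/-!
Furedi's theorem: an intersecting family of sets with at most `q + 1` elements and fractional
matching number larger than `q` is a projective plane of order `q`.
-/

namespace Pool.Agent.Helper99.NMax

open Finset

set_option linter.unusedSectionVars false

variable {ι β : Type} [Fintype ι] [DecidableEq ι] [Fintype β] [DecidableEq β]

lemma sum_deg (A : ι → Finset β) (w : ι → ℝ) (F : Finset β) :
    ∑ e ∈ F, ∑ j ∈ univ.filter (fun j => e ∈ A j), w j = ∑ j, w j * ((F ∩ A j).card : ℝ) := by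
  simp only [Finset.sum_filter]
  rw [Finset.sum_comm]
  refine Finset.sum_congr rfl fun j _ => ?_
  rw [← Finset.sum_filter, Finset.sum_const, nsmul_eq_mul, mul_comm]
  congr 2

lemma sum_deg_nat (A : ι → Finset β) (J : Finset ι) (F : Finset β) :
    ∑ e ∈ F, (J.filter (fun j => e ∈ A j)).card = ∑ j ∈ J, (F ∩ A j).card := by
  simp only [Finset.card_filter]
  rw [Finset.sum_comm]
  refine Finset.sum_congr rfl fun j _ => ?_
  rw [← Finset.card_filter, Finset.filter_mem_eq_inter]

/-- The conclusion of Furedi's theorem: the sets with index in `J` form a projective plane of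
order `q`. -/
structure IsPlaneIn (A : ι → Finset β) (q : ℕ) (J : Finset ι) : Prop where
  card : J.card = q ^ 2 + q + 1
  size : ∀ i ∈ J, (A i).card = q + 1
  inter : ∀ i ∈ J, ∀ j ∈ J, i ≠ j → (A i ∩ A j).card = 1
  deg : ∀ e, (J.filter (fun j => e ∈ A j)).card = 0 ∨
    (J.filter (fun j => e ∈ A j)).card = q + 1

theorem furedi (A : ι → Finset β) {q : ℕ} (hq : 1 ≤ q) (hcard : ∀ i, (A i).card ≤ q + 1)
    (hint : ∀ i j, (A i ∩ A j).Nonempty) (w₀ : ι → ℝ) (hw₀ : ∀ i, 0 ≤ w₀ i)
    (hw₁ : ∀ e : β, ∑ i ∈ univ.filter (fun i => e ∈ A i), w₀ i ≤ 1)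
    (hW : (q : ℝ) < ∑ i, w₀ i) : ∃ J : Finset ι, IsPlaneIn A q J := by
  classical
  have hne : ∀ i, (A i).Nonempty := fun i => by simpa using hint i i
  obtain ⟨w, hwf, hmax, hsupp⟩ := exists_basic A hne
  have hT : (q : ℝ) < ∑ i, w i := lt_of_lt_of_le hW (hmax w₀ ⟨hw₀, hw₁⟩)
  set T : ℝ := ∑ i, w i with hTdef
  set J := univ.filter (fun i => w i ≠ 0) with hJ
  set t := univ.filter (fun e : β => ∑ i ∈ univ.filter (fun i => e ∈ A i), w i = 1) with ht
  have hqR : (0 : ℝ) < q := by exact_mod_cast hq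
  -- (1)
  have h1 : ∀ i, T + ((A i).card - 1) * w i ≤ (A i).card := by
    intro i
    have hle : ∑ e ∈ A i, ∑ j ∈ univ.filter (fun j => e ∈ A j), w j ≤ (A i).card := by
      calc ∑ e ∈ A i, ∑ j ∈ univ.filter (fun j => e ∈ A j), w j ≤ ∑ e ∈ A i, (1 : ℝ) :=
            Finset.sum_le_sum fun e _ => hwf.2 e
        _ = (A i).card := by simp
    rw [sum_deg] at hle
    have hge : T + ((A i).card - 1) * w i ≤ ∑ j, w j * ((A i ∩ A j).card : ℝ) := by
      have hsplit : ∑ j, w j * ((A i ∩ A j).card : ℝ)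
          = ∑ j, w j + ∑ j, w j * (((A i ∩ A j).card : ℝ) - 1) := by
        rw [← Finset.sum_add_distrib]
        refine Finset.sum_congr rfl fun j _ => by ring
      rw [hsplit]
      have hs : w i * (((A i ∩ A i).card : ℝ) - 1) ≤
          ∑ j, w j * (((A i ∩ A j).card : ℝ) - 1) := by
        apply Finset.single_le_sum (f := fun j => w j * (((A i ∩ A j).card : ℝ) - 1))
        · intro j _
          apply mul_nonneg (hwf.1 j)
          have : 1 ≤ (A i ∩ A j).card := (hint i j).card_pos
          have : (1 : ℝ) ≤ (A i ∩ A j).card := by exact_mod_cast this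
          linarith
        · exact Finset.mem_univ i
      rw [Finset.inter_self] at hs
      linarith
    linarith
  have hsize : ∀ i, (A i).card = q + 1 := by
    intro i
    have h := h1 i
    have hpos : (1 : ℝ) ≤ (A i).card := by exact_mod_cast (hne i).card_pos
    have h2 : 0 ≤ ((A i).card - 1) * w i := mul_nonneg (by linarith) (hwf.1 i)
    have h3 : (q : ℝ) < (A i).card := by linarith
    have h4 : q < (A i).card := by exact_mod_cast h3
    have := hcard i
    omega
  have hw1 : ∀ i, (q : ℝ) * w i < 1 := by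
    intro i
    have h := h1 i
    rw [hsize i] at h
    push_cast at h
    nlinarith
  set k : β → ℕ := fun e => (J.filter (fun j => e ∈ A j)).card with hk
  have hdeg : ∀ e : β, ∑ i ∈ univ.filter (fun i => e ∈ A i), w i =
      ∑ i ∈ J.filter (fun i => e ∈ A i), w i := by
    intro e
    symm
    apply Finset.sum_subset
    · intro i hi
      simp only [Finset.mem_filter, Finset.mem_univ, true_and] at hi ⊢
      exact hi.2
    · intro i hi hi'
      simp only [hJ, Finset.mem_filter, Finset.mem_univ, true_and, not_and] at hi hi'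
      by_contra hne0
      exact hi' hne0 hi
  -- (2)
  have h2 : ∀ e ∈ t, q + 1 ≤ k e := by
    intro e he
    have he1 : ∑ i ∈ univ.filter (fun i => e ∈ A i), w i = 1 := by
      simpa [ht] using he
    rw [hdeg] at he1
    have hne0 : (J.filter (fun j => e ∈ A j)).Nonempty := by
      rw [Finset.nonempty_iff_ne_empty]
      intro h
      rw [h] at he1
      simp at he1
    have hlt : ∑ i ∈ J.filter (fun i => e ∈ A i), (q : ℝ) * w i <
        ∑ i ∈ J.filter (fun i => e ∈ A i), (1 : ℝ) :=
      Finset.sum_lt_sum_of_nonempty hne0 fun i _ => hw1 i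
    rw [← Finset.mul_sum, he1] at hlt
    simp only [mul_one, Finset.sum_const, nsmul_eq_mul] at hlt
    have : q < (J.filter (fun j => e ∈ A j)).card := by exact_mod_cast hlt
    exact this
  -- (3)
  have hJt : J.card ≤ t.card := hsupp
  have hsum : ∑ e, k e = (q + 1) * J.card := by
    have := sum_deg_nat A J (univ : Finset β)
    simp only [Finset.univ_inter] at this
    rw [show ∑ e, k e = ∑ e ∈ (univ : Finset β), (J.filter (fun j => e ∈ A j)).card from rfl,
      this, Finset.sum_congr rfl (fun j _ => hsize j), Finset.sum_const, smul_eq_mul, mul_comm]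
  have hsplit : ∑ e, k e = ∑ e ∈ t, k e + ∑ e ∈ tᶜ, k e := (Finset.sum_add_sum_compl t k).symm
  have hge : (q + 1) * t.card ≤ ∑ e ∈ t, k e := by
    calc (q + 1) * t.card = ∑ e ∈ t, (q + 1) := by
          rw [Finset.sum_const, smul_eq_mul, mul_comm]
      _ ≤ _ := Finset.sum_le_sum h2
  have hmul : (q + 1) * J.card ≤ (q + 1) * t.card := Nat.mul_le_mul_left _ hJt
  have hcompl : ∑ e ∈ tᶜ, k e = 0 := by omega
  have hteq : ∑ e ∈ t, k e = (q + 1) * t.card := by omega
  have hcardeq : J.card = t.card := by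
    have : (q + 1) * J.card = (q + 1) * t.card := by omega
    exact Nat.eq_of_mul_eq_mul_left (by omega) this
  have hkt : ∀ e ∈ t, k e = q + 1 := by
    have : ∑ e ∈ t, (q + 1) = ∑ e ∈ t, k e := by
      rw [hteq, Finset.sum_const, smul_eq_mul, mul_comm]
    intro e he
    exact ((Finset.sum_eq_sum_iff_of_le h2).1 this e he).symm
  have hkc : ∀ e, e ∉ t → k e = 0 := by
    intro e he
    exact (Finset.sum_eq_zero_iff.1 hcompl) e (by simpa using he)
  have hkall : ∀ e, k e = 0 ∨ k e = q + 1 := by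
    intro e
    by_cases he : e ∈ t
    · exact Or.inr (hkt e he)
    · exact Or.inl (hkc e he)
  have hkpos : ∀ i ∈ J, ∀ e ∈ A i, k e = q + 1 := by
    intro i hi e he
    rcases hkall e with h | h
    · exfalso
      have : i ∈ J.filter (fun j => e ∈ A j) := by simp [hi, he]
      rw [Finset.card_eq_zero.1 h] at this
      simp at this
    · exact h
  -- (5)
  have hTN : ((q : ℝ) + 1) * T = J.card := by
    have hA := sum_deg A w (univ : Finset β)
    simp only [Finset.univ_inter] at hA
    have hB : ∑ j, w j * ((A j).card : ℝ) = ((q : ℝ) + 1) * T := by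
      rw [hTdef, Finset.mul_sum]
      refine Finset.sum_congr rfl fun j _ => ?_
      rw [hsize j]; push_cast; ring
    rw [hB] at hA
    rw [← hA, hcardeq]
    have hC : ∑ e, ∑ j ∈ univ.filter (fun j => e ∈ A j), w j =
        ∑ e ∈ t, ∑ j ∈ univ.filter (fun j => e ∈ A j), w j := by
      symm
      apply Finset.sum_subset (Finset.subset_univ t)
      intro e _ he
      rw [hdeg]
      have := hkc e he
      rw [Finset.card_eq_zero.1 this]
      simp
    rw [hC]
    calc ∑ e ∈ t, ∑ j ∈ univ.filter (fun j => e ∈ A j), w j = ∑ e ∈ t, (1 : ℝ) := by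
          refine Finset.sum_congr rfl fun e he => ?_
          simpa [ht] using he
      _ = t.card := by simp
  have hJge : q ^ 2 + q + 1 ≤ J.card := by
    have : ((q ^ 2 + q : ℕ) : ℝ) < J.card := by
      rw [← hTN]; push_cast; nlinarith
    have : q ^ 2 + q < J.card := by exact_mod_cast this
    omega
  have hJne : J.Nonempty := by
    rw [← Finset.card_pos]; omega
  -- (4)
  have h4 : ∀ i ∈ J, ∑ j ∈ J, (A i ∩ A j).card = (q + 1) * (q + 1) := by
    intro i hi
    rw [← sum_deg_nat A J (A i), Finset.sum_congr rfl (fun e he => hkpos i hi e he),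
      Finset.sum_const, smul_eq_mul, hsize i]
  have h4' : ∀ i ∈ J, ∑ j ∈ J.erase i, (A i ∩ A j).card = (q + 1) * q := by
    intro i hi
    have h := h4 i hi
    rw [← Finset.add_sum_erase J _ hi, Finset.inter_self, hsize i] at h
    nlinarith
  have hJle : J.card ≤ q ^ 2 + q + 1 := by
    obtain ⟨i, hi⟩ := hJne
    have h := h4' i hi
    have : (J.erase i).card ≤ ∑ j ∈ J.erase i, (A i ∩ A j).card := by
      rw [Finset.card_eq_sum_ones]
      exact Finset.sum_le_sum fun j _ => (hint i j).card_pos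
    rw [h, Finset.card_erase_of_mem hi] at this
    have e : (q + 1) * q = q ^ 2 + q := by ring
    omega
  refine ⟨J, by omega, fun i _ => hsize i, ?_, hkall⟩
  intro i hi j hj hij
  have h := h4' i hi
  have hc : (J.erase i).card = (q + 1) * q := by
    rw [Finset.card_erase_of_mem hi]
    have e : (q + 1) * q = q ^ 2 + q := by ring
    omega
  have heq : ∑ j ∈ J.erase i, 1 = ∑ j ∈ J.erase i, (A i ∩ A j).card := by
    rw [h, ← hc, Finset.card_eq_sum_ones]
  exact ((Finset.sum_eq_sum_iff_of_le (fun j _ => (hint i j).card_pos)).1 heq j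
    (Finset.mem_erase.2 ⟨Ne.symm hij, hj⟩)).symm

lemma pair_le_one {A : ι → Finset β} {q : ℕ} {J : Finset ι} (h : IsPlaneIn A q J)
    {e c : β} (hec : e ≠ c) :
    (J.filter (fun i => c ∈ A i ∧ e ∈ A i)).card ≤ 1 := by
  rw [Finset.card_le_one]
  intro i hi j hj
  simp only [Finset.mem_filter] at hi hj
  by_contra hij
  have h1 := h.inter i hi.1 j hj.1 hij
  rw [Finset.card_eq_one] at h1
  obtain ⟨x, hx⟩ := h1
  have he : e ∈ A i ∩ A j := Finset.mem_inter.2 ⟨hi.2.2, hj.2.2⟩
  have hc : c ∈ A i ∩ A j := Finset.mem_inter.2 ⟨hi.2.1, hj.2.1⟩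
  rw [hx, Finset.mem_singleton] at he hc
  exact hec (he.trans hc.symm)

/-- A set with at most `q + 1` elements meeting all lines of a plane of order `q` is a line. -/
lemma blocking {A : ι → Finset β} {q : ℕ} {J : Finset ι} (hq : 1 ≤ q) (h : IsPlaneIn A q J)
    {F : Finset β} (hF : F.card ≤ q + 1) (hmeet : ∀ j ∈ J, (F ∩ A j).Nonempty) :
    ∃ j ∈ J, F = A j := by
  classical
  have hsum : ∑ e ∈ F, (J.filter (fun j => e ∈ A j)).card = ∑ j ∈ J, (F ∩ A j).card :=
    sum_deg_nat A J F
  have hJ : J.card ≤ ∑ j ∈ J, (F ∩ A j).card := by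
    rw [Finset.card_eq_sum_ones]
    exact Finset.sum_le_sum fun j hj => (hmeet j hj).card_pos
  have hk : ∀ e, (J.filter (fun j => e ∈ A j)).card ≤ q + 1 := by
    intro e
    rcases h.deg e with h | h <;> omega
  -- all points of `F` are points of the plane
  have hall : ∀ e ∈ F, (J.filter (fun j => e ∈ A j)).card = q + 1 := by
    intro e he
    rcases h.deg e with h0 | h0
    · exfalso
      have h1 : ∑ e ∈ F, (J.filter (fun j => e ∈ A j)).card ≤ (F.erase e).card * (q + 1) := by
        rw [← Finset.add_sum_erase F _ he, h0, zero_add]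
        exact Finset.sum_le_card_nsmul _ _ _ fun x _ => hk x
      rw [Finset.card_erase_of_mem he] at h1
      have h2 : (F.card - 1) * (q + 1) ≤ q * (q + 1) := Nat.mul_le_mul_right _ (by omega)
      have h3 := h.card
      have h4 : q * (q + 1) = q ^ 2 + q := by ring
      omega
    · exact h0
  have hFc : F.card = q + 1 := by
    have h1 : ∑ e ∈ F, (J.filter (fun j => e ∈ A j)).card ≤ F.card * (q + 1) :=
      Finset.sum_le_card_nsmul _ _ _ fun x _ => hk x
    by_contra hne
    have h2 : F.card * (q + 1) ≤ q * (q + 1) := Nat.mul_le_mul_right _ (by omega)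
    have h3 := h.card
    have h4 : q * (q + 1) = q ^ 2 + q := by ring
    omega
  have htot : ∑ j ∈ J, (F ∩ A j).card = (q + 1) * (q + 1) := by
    rw [← hsum, Finset.sum_congr rfl hall, Finset.sum_const, smul_eq_mul, hFc]
  obtain ⟨j, hj, hj2⟩ : ∃ j ∈ J, 1 < (F ∩ A j).card := by
    by_contra hcon
    push Not at hcon
    have h1 : ∑ j ∈ J, (F ∩ A j).card ≤ J.card * 1 := Finset.sum_le_card_nsmul _ _ _ hcon
    rw [htot, h.card] at h1
    nlinarith
  refine ⟨j, hj, ?_⟩
  by_contra hne
  have hsub : ¬ A j ⊆ F := fun hs =>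
    hne (Finset.eq_of_subset_of_card_le hs (by rw [hFc, h.size j hj])).symm
  obtain ⟨c, hcj, hcF⟩ := Finset.not_subset.1 hsub
  have hkc : (J.filter (fun i => c ∈ A i)).card = q + 1 := by
    rcases h.deg c with h0 | h0
    · exfalso
      have : j ∈ J.filter (fun i => c ∈ A i) := by simp [hj, hcj]
      rw [Finset.card_eq_zero.1 h0] at this
      simp at this
    · exact h0
  have hcount : ∑ i ∈ J.filter (fun i => c ∈ A i), (F ∩ A i).card ≤ q + 1 := by
    rw [← sum_deg_nat A (J.filter (fun i => c ∈ A i)) F, ← hFc, Finset.card_eq_sum_ones]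
    refine Finset.sum_le_sum fun e he => ?_
    have hec : e ≠ c := fun h => hcF (h ▸ he)
    rw [Finset.filter_filter]
    exact pair_le_one h hec
  have hjm : j ∈ J.filter (fun i => c ∈ A i) := by simp [hj, hcj]
  have hge : (F ∩ A j).card + q ≤ ∑ i ∈ J.filter (fun i => c ∈ A i), (F ∩ A i).card := by
    rw [← Finset.add_sum_erase _ _ hjm]
    apply Nat.add_le_add_left
    have : ((J.filter (fun i => c ∈ A i)).erase j).card = q := by
      rw [Finset.card_erase_of_mem hjm, hkc]; omega
    rw [← this, Finset.card_eq_sum_ones]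
    refine Finset.sum_le_sum fun i hi => (hmeet i ?_).card_pos
    have := Finset.mem_of_mem_erase hi
    exact (Finset.mem_filter.1 this).1
  omega

/-- Integer weights on the lines of a projective plane of order `q` with all point sums at most
`r = a (q + 1) + b`. -/
theorem weights {A : ι → Finset β} {q r a b : ℕ} (hq : 1 ≤ q) (h : IsPlaneIn A q univ)
    (u : ι → ℕ) (hu : ∀ e, ∑ i ∈ univ.filter (fun i => e ∈ A i), u i ≤ r)
    (hr : r = a * (q + 1) + b) (hb1 : 1 ≤ b) (hb2 : b ≤ q + 1) :
    ∑ i, u i ≤ a * (q ^ 2 + q + 1) + 1 + (q + 1) * (b - 1) := by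
  classical
  set t : Finset β := univ.filter (fun e => (univ.filter (fun j => e ∈ A j)).card = q + 1)
    with ht
  set W : ℕ := ∑ i, u i with hW
  have hc : Fintype.card ι = q ^ 2 + q + 1 := by
    rw [← Finset.card_univ]; exact h.card
  -- line sums of the degrees
  have hline : ∀ i, ∑ e ∈ A i, ∑ j ∈ univ.filter (fun j => e ∈ A j), u j = W + q * u i := by
    intro i
    have h1 : ∑ e ∈ A i, ∑ j ∈ univ.filter (fun j => e ∈ A j), u j
        = ∑ j, u j * (A i ∩ A j).card := by
      simp only [Finset.sum_filter]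
      rw [Finset.sum_comm]
      refine Finset.sum_congr rfl fun j _ => ?_
      rw [← Finset.sum_filter, Finset.sum_const, smul_eq_mul, mul_comm]
      congr 2
    rw [h1, ← Finset.add_sum_erase univ _ (Finset.mem_univ i), Finset.inter_self,
      h.size i (Finset.mem_univ i), hW, ← Finset.add_sum_erase univ u (Finset.mem_univ i)]
    have h2 : ∑ j ∈ univ.erase i, u j * (A i ∩ A j).card = ∑ j ∈ univ.erase i, u j := by
      refine Finset.sum_congr rfl fun j hj => ?_
      rw [h.inter i (Finset.mem_univ i) j (Finset.mem_univ j)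
        (Ne.symm (Finset.ne_of_mem_erase hj)), mul_one]
    rw [h2]; ring
  -- each line sum of the deficiencies
  have hdef : ∀ i, W + q * u i ≤ (q + 1) * r := by
    intro i
    rw [← hline i]
    calc _ ≤ ∑ e ∈ A i, r := Finset.sum_le_sum fun e _ => hu e
      _ = (q + 1) * r := by
        rw [Finset.sum_const, smul_eq_mul, h.size i (Finset.mem_univ i)]
  have hlines : ∑ i, (A i).card = (q + 1) * (q ^ 2 + q + 1) := by
    rw [Finset.sum_congr rfl fun i _ => h.size i (Finset.mem_univ i), Finset.sum_const,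
      smul_eq_mul, Finset.card_univ, hc, mul_comm]
  -- total: sum over lines of `W + q u i` against the deficiency
  have hD : (q ^ 2 + q + 1) * W + q * W = (q + 1) * ((q + 1) * W) := by ring
  -- the total deficiency `D`
  obtain ⟨hD0, hDle⟩ : (0 : ℤ) ≤ ((q : ℤ) ^ 2 + q + 1) * r - (q + 1) * W ∧ True := by
    refine ⟨?_, trivial⟩
    have h1 : ∑ i, (W + q * u i) ≤ ∑ _i : ι, (q + 1) * r := Finset.sum_le_sum fun i _ => hdef i
    rw [Finset.sum_add_distrib, ← Finset.mul_sum, Finset.sum_const, Finset.sum_const,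
      Finset.card_univ, hc, smul_eq_mul, smul_eq_mul, ← hW] at h1
    have h2 : (q + 1) * ((q + 1) * W) ≤ (q + 1) * ((q ^ 2 + q + 1) * r) := by
      rw [← hD]
      calc _ ≤ (q ^ 2 + q + 1) * ((q + 1) * r) := h1
        _ = _ := by ring
    have h3 : (q + 1) * W ≤ (q ^ 2 + q + 1) * r := Nat.le_of_mul_le_mul_left h2 (by omega)
    have h4 : (((q + 1) * W : ℕ) : ℤ) ≤ (((q ^ 2 + q + 1) * r : ℕ) : ℤ) := by exact_mod_cast h3
    push_cast at h4
    linarith
  -- residues
  set R : ℤ := (q + 1) * r - W with hR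
  set s : ℤ := R % q with hs
  set c : ℤ := R / q with hcdef
  have hqz : (0 : ℤ) < q := by exact_mod_cast hq
  have hRs : R = q * c + s := by rw [hs, hcdef]; exact (Int.mul_ediv_add_emod R q).symm
  have hs0 : 0 ≤ s := Int.emod_nonneg _ hqz.ne'
  have hsq : s < q := Int.emod_lt_of_pos _ hqz
  have hterm : ∀ i, s ≤ R - q * u i := by
    intro i
    have h1 : (0 : ℤ) ≤ R - q * u i := by
      have := hdef i
      have h4 : ((W + q * u i : ℕ) : ℤ) ≤ (((q + 1) * r : ℕ) : ℤ) := by exact_mod_cast this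
      push_cast at h4
      rw [hR]; linarith
    rw [hRs] at h1 ⊢
    by_contra hlt
    push Not at hlt
    have h2 : (q : ℤ) * (c - u i) < 0 := by linarith
    have h3 : c - u i < 0 := by
      by_contra h3
      push Not at h3
      have := mul_nonneg hqz.le h3
      linarith
    have h4 : (q : ℤ) * (c - u i) ≤ q * (-1) := mul_le_mul_of_nonneg_left (by linarith) hqz.le
    nlinarith
  set D : ℤ := ((q : ℤ) ^ 2 + q + 1) * r - (q + 1) * W with hDdef
  have hsumD : ((q : ℤ) + 1) * D = ∑ i : ι, (R - q * u i) := by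
    rw [Finset.sum_sub_distrib, ← Finset.mul_sum, Finset.sum_const, Finset.card_univ, hc,
      nsmul_eq_mul]
    have : (∑ i, (u i : ℤ)) = W := by rw [hW]; push_cast; rfl
    rw [this, hDdef, hR]
    push_cast
    ring
  have hge : ((q : ℤ) ^ 2 + q + 1) * s ≤ (q + 1) * D := by
    rw [hsumD]
    calc ((q : ℤ) ^ 2 + q + 1) * s = ∑ _i : ι, s := by
          rw [Finset.sum_const, Finset.card_univ, hc, nsmul_eq_mul]; push_cast; ring
      _ ≤ _ := Finset.sum_le_sum fun i _ => hterm i
  set m : ℤ := c + q * r - W with hm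
  have hDm : D = s + q * m := by
    rw [hDdef, hm]
    have : (W : ℤ) = (q + 1) * r - (q * c + s) := by rw [← hRs, hR]; ring
    rw [this]; ring
  have hms : s ≤ m := by
    by_contra hlt
    push Not at hlt
    rw [hDm] at hge
    have h1 : m ≤ s - 1 := by linarith
    have h2 : (q : ℤ) * ((q + 1) * m) ≥ q * (q * s) := by nlinarith
    have h3 : ((q : ℤ) + 1) * m ≥ q * s := le_of_mul_le_mul_left h2 hqz
    nlinarith
  have hkb : (q : ℤ) + 1 ∣ (m - s) + b := by
    refine ⟨s + (m - s) - q * r - a + W, ?_⟩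
    have hrz : (r : ℤ) = a * (q + 1) + b := by rw [hr]; push_cast; ring
    have h1 : ((q : ℤ) ^ 2 + q + 1) * r - (q + 1) * W = s + q * m := by rw [← hDm]
    have h2 : (b : ℤ) = r - a * (q + 1) := by rw [hrz]; ring
    rw [h2]
    nlinarith
  have hpos : (0 : ℤ) < (m - s) + b := by
    have : (1 : ℤ) ≤ b := by exact_mod_cast hb1
    linarith
  have hle := Int.le_of_dvd hpos hkb
  -- conclusion
  have hfin : ((q : ℤ) + 1) * W ≤ ((q : ℤ) ^ 2 + q + 1) * r - q * (q + 1 - b) := by
    have h1 : D ≥ q * (q + 1 - b) := by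
      rw [hDm]
      have h2 : (q : ℤ) * (m - s) ≥ q * (q + 1 - b) :=
        mul_le_mul_of_nonneg_left (by linarith) hqz.le
      nlinarith
    rw [hDdef] at h1
    linarith
  obtain ⟨b', rfl⟩ : ∃ b', b = b' + 1 := ⟨b - 1, by omega⟩
  have hfin2 : ((q : ℤ) + 1) * W ≤ (q + 1) * (a * (q ^ 2 + q + 1) + 1 + (q + 1) * b') := by
    refine le_trans hfin ?_
    rw [hr]; push_cast
    nlinarith
  have hfin3 : (W : ℤ) ≤ a * (q ^ 2 + q + 1) + 1 + (q + 1) * b' :=
    le_of_mul_le_mul_left hfin2 (by linarith)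
  rw [Nat.add_sub_cancel]
  exact_mod_cast hfin3

end Pool.Agent.Helper99.NMax
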