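import Mathlib
import Pool.Agent.Helper99.NMax.Defs
import Pool.Agent.Helper99.NMax.Core

/-!
Upper bound for `n(q+1,1,r)`, and the projective plane in a large hypergraph.
-/

namespace Pool.Agent.Helper99.NMax

open Finset

set_option linter.unusedSectionVars false

/-- A plane in a set system with injective index gives a design. -/
lemma planeExists_of {ι β : Type} [Fintype ι] [DecidableEq ι] [Fintype β] [DecidableEq β]
    {A : ι → Finset β} {q : ℕ} (h : IsPlaneIn A q univ) : PlaneExists q := by
  classical
  have hc : Fintype.card ι = q ^ 2 + q + 1 := by rw [← Finset.card_univ]; exact h.card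
  let σ : ι ≃ Fin (q ^ 2 + q + 1) := Fintype.equivFinOfCardEq hc
  let blk : β → Finset (Fin (q ^ 2 + q + 1)) := fun e =>
    (univ.filter (fun i => e ∈ A i)).map σ.toEmbedding
  have hblk : ∀ e x, x ∈ blk e ↔ e ∈ A (σ.symm x) := by
    intro e x
    simp only [blk, Finset.mem_map, Finset.mem_filter, Finset.mem_univ, true_and,
      Equiv.coe_toEmbedding]
    constructor
    · rintro ⟨i, hi, rfl⟩; simpa using hi
    · intro hx; exact ⟨σ.symm x, hx, by simp⟩
  refine ⟨(univ.filter (fun e => (univ.filter (fun i => e ∈ A i)).card = q + 1)).image blk,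
    ?_, ?_⟩
  · intro l hl
    obtain ⟨e, he, rfl⟩ := Finset.mem_image.1 hl
    simp only [Finset.mem_filter, Finset.mem_univ, true_and] at he
    simp only [blk, Finset.card_map, he]
  · intro x y hxy
    have hne : σ.symm x ≠ σ.symm y := fun h => hxy (σ.symm.injective h)
    have h1 := h.inter _ (Finset.mem_univ _) _ (Finset.mem_univ _) hne
    obtain ⟨e, he⟩ := Finset.card_eq_one.1 h1
    have heI : e ∈ A (σ.symm x) ∩ A (σ.symm y) := by rw [he]; simp
    rw [Finset.mem_inter] at heI
    refine ⟨blk e, ⟨?_, ?_, ?_⟩, ?_⟩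
    · refine Finset.mem_image_of_mem blk ?_
      simp only [Finset.mem_filter, Finset.mem_univ, true_and]
      rcases h.deg e with h0 | h0
      · exfalso
        have : σ.symm x ∈ univ.filter (fun j => e ∈ A j) := by simp [heI.1]
        rw [Finset.card_eq_zero.1 h0] at this
        simp at this
      · exact h0
    · exact (hblk e x).2 heI.1
    · exact (hblk e y).2 heI.2
    · rintro l ⟨hl, hx, hy⟩
      obtain ⟨e', _, rfl⟩ := Finset.mem_image.1 hl
      have h2 : e' ∈ A (σ.symm x) ∩ A (σ.symm y) :=
        Finset.mem_inter.2 ⟨(hblk _ _).1 hx, (hblk _ _).1 hy⟩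
      rw [he, Finset.mem_singleton] at h2
      rw [h2]

theorem upper {q r a b n : ℕ} (hq : 1 ≤ q) (hg : Good (q + 1) r n)
    (hr : r = a * (q + 1) + b) (hb1 : 1 ≤ b) (hb2 : b ≤ q + 1) :
    n ≤ q * r ∨ (n ≤ a * (q ^ 2 + q + 1) + 1 + (q + 1) * (b - 1) ∧ PlaneExists q) := by
  classical
  by_cases hn : n ≤ q * r
  · exact Or.inl hn
  right
  push Not at hn
  have hr1 : 1 ≤ r := by omega
  have hn2 : 1 < n := by
    have : 1 * 1 ≤ q * r := Nat.mul_le_mul hq hr1
    omega
  obtain ⟨E, hE⟩ := hg
  set S : Fin n → Finset (Finset (Fin n)) := fun v => E.filter (fun e => v ∈ e) with hS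
  set T : Finset (Finset (Finset (Fin n))) := univ.image S with hT
  let ι := {s // s ∈ T}
  let A : ι → Finset (Finset (Fin n)) := fun i => i.1
  let f : Fin n → ι := fun v => ⟨S v, Finset.mem_image_of_mem S (Finset.mem_univ v)⟩
  have hf : Function.Surjective f := by
    rintro ⟨s, hs⟩
    obtain ⟨v, _, hv⟩ := Finset.mem_image.1 hs
    exact ⟨v, Subtype.ext hv⟩
  have hAf : ∀ v, A (f v) = S v := fun v => rfl
  have hcard : ∀ i, (A i).card ≤ q + 1 := by
    intro i
    obtain ⟨v, rfl⟩ := hf i
    exact hE.degree v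
  have hSS : ∀ v w : Fin n, v ≠ w → (S v ∩ S w).Nonempty := by
    intro v w hvw
    obtain ⟨e, he, h1, h2⟩ := hE.covers v w hvw
    exact ⟨e, by simp [hS, he, h1, h2]⟩
  have hS1 : ∀ v : Fin n, (S v).Nonempty := by
    intro v
    obtain ⟨w, hw⟩ : ∃ w : Fin n, w ≠ v := by
      haveI : Nontrivial (Fin n) := Fin.nontrivial_iff_two_le.2 hn2
      exact exists_ne v
    obtain ⟨e, he⟩ := hSS v w hw.symm
    exact ⟨e, (Finset.mem_inter.1 he).1⟩
  have hint : ∀ i j, (A i ∩ A j).Nonempty := by
    intro i j
    obtain ⟨v, rfl⟩ := hf i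
    obtain ⟨w, rfl⟩ := hf j
    by_cases hvw : v = w
    · subst hvw
      rw [Finset.inter_self]
      exact hS1 v
    · exact hSS v w hvw
  let u : ι → ℕ := fun i => (univ.filter (fun v => f v = i)).card
  have hu : ∀ e, ∑ i ∈ univ.filter (fun i => e ∈ A i), u i ≤ r := by
    intro e
    have h1 : ∑ i ∈ univ.filter (fun i => e ∈ A i), u i
        = (univ.filter (fun v : Fin n => e ∈ S v)).card := by
      rw [Finset.card_eq_sum_card_fiberwise (f := f) (t := univ.filter (fun i => e ∈ A i))]
      · refine Finset.sum_congr rfl fun i hi => ?_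
        simp only [u]
        congr 1
        ext v
        simp only [Finset.mem_filter, Finset.mem_univ, true_and]
        constructor
        · intro hv
          refine ⟨?_, hv⟩
          have := (Finset.mem_filter.1 hi).2
          rw [← hv] at this
          exact this
        · exact fun h => h.2
      · intro v hv
        simp only [Finset.coe_filter, Finset.mem_univ, true_and, Set.mem_ofPred_eq] at hv ⊢
        exact hv
    rw [h1]
    by_cases he : e ∈ E
    · refine le_trans (Finset.card_le_card ?_) (hE.rank e he)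
      intro v hv
      simp only [hS, Finset.mem_filter, Finset.mem_univ, true_and] at hv
      exact hv.2
    · have : (univ.filter (fun v : Fin n => e ∈ S v)) = ∅ := by
        ext v; simp [hS, he]
      rw [this]; simp
  have hutot : ∑ i, u i = n := by
    have h1 := Finset.card_eq_sum_card_fiberwise (f := f) (s := (univ : Finset (Fin n)))
      (t := univ) (fun v _ => by simp)
    rw [Finset.card_univ, Fintype.card_fin] at h1
    exact h1.symm
  have hrR : (0 : ℝ) < r := by exact_mod_cast hr1
  obtain ⟨J, hJ⟩ := furedi A hq hcard hint (fun i => (u i : ℝ) / r)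
    (fun i => by positivity)
    (fun e => by
      rw [← Finset.sum_div, div_le_one hrR]
      exact_mod_cast hu e)
    (by
      rw [← Finset.sum_div, lt_div_iff₀ hrR]
      have h1 : (∑ i, (u i : ℝ)) = n := by exact_mod_cast hutot
      rw [h1]
      exact_mod_cast hn)
  have hJu : J = univ := by
    rw [Finset.eq_univ_iff_forall]
    intro i
    obtain ⟨j, hj, hij⟩ := blocking hq hJ (hcard i) (fun j _ => hint i j)
    have : i = j := Subtype.ext hij
    rw [this]; exact hj
  rw [hJu] at hJ
  refine ⟨?_, planeExists_of hJ⟩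
  rw [← hutot]
  exact weights hq hJ u hu hr hb1 hb2

end Pool.Agent.Helper99.NMax
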