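import Mathlib
import Pool.Agent.Helper99.NMax.Upper
import Pool.Agent.Helper99.NMax.Fisher
import Pool.Agent.Helper99.NMax.Planes
import Pool.Agent.Helper99.NMax.Arcs
import Pool.Agent.Helper99.NMax.Small

/-!
# Consequences of the bounds for `n(D,1,r)`
-/

namespace Pool.Agent.Helper99.NMax

/-- The number `1 + D (r - 1) - (D - 1) ⌊(r - 1) / D⌋`. -/
def F (D r : ℕ) : ℕ := 1 + D * (r - 1) - (D - 1) * ((r - 1) / D)

lemma F_eq {q a b : ℕ} (hb1 : 1 ≤ b) (hb2 : b ≤ q + 1) :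
    F (q + 1) (a * (q + 1) + b) = a * (q ^ 2 + q + 1) + 1 + (q + 1) * (b - 1) := by
  obtain ⟨c, rfl⟩ : ∃ c, b = c + 1 := ⟨b - 1, by omega⟩
  have h1 : a * (q + 1) + (c + 1) - 1 = c + (q + 1) * a := by
    rw [mul_comm a]; omega
  have h2 : (c + (q + 1) * a) / (q + 1) = a := by
    rw [Nat.add_mul_div_left _ _ (by omega), Nat.div_eq_of_lt (by omega)]
    omega
  rw [F, h1, h2, Nat.add_sub_cancel, Nat.add_sub_cancel]
  apply Nat.sub_eq_of_eq_add
  ring

lemma split (q r : ℕ) (hr : 1 ≤ r) : r = ((r - 1) / (q + 1)) * (q + 1) + ((r - 1) % (q + 1) + 1) := by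
  have := Nat.div_add_mod (r - 1) (q + 1)
  rw [mul_comm] at this
  omega

lemma F_pos {q a b : ℕ} (hb1 : 1 ≤ b) (h : q ≤ a + b) :
    a * (q ^ 2 + q + 1) + 1 + (q + 1) * (b - 1) = q * (a * (q + 1) + b) + (a + b - q) := by
  obtain ⟨c, rfl⟩ : ∃ c, b = c + 1 := ⟨b - 1, by omega⟩
  obtain ⟨d, hd⟩ : ∃ d, a + (c + 1) = q + d := ⟨a + (c + 1) - q, by omega⟩
  have : a + (c + 1) - q = d := by omega
  rw [this, Nat.add_sub_cancel]
  have h2 : a * (q ^ 2 + q + 1) + 1 + (q + 1) * c + q = q * (a * (q + 1) + (c + 1)) + (a + (c + 1)) := by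
    ring
  rw [hd] at h2
  omega

lemma main_le {q r : ℕ} (hq : 1 ≤ q) (hr : 1 ≤ r)
    (h : q + 1 ≤ (r - 1) / (q + 1) + (r - 1) % (q + 1) + 2) : nMax (q + 1) r ≤ F (q + 1) r := by
  have hs := split q r hr
  set a := (r - 1) / (q + 1) with ha
  set b := (r - 1) % (q + 1) + 1 with hb
  have hb1 : 1 ≤ b := by omega
  have hb2 : b ≤ q + 1 := by
    have := Nat.mod_lt (r - 1) (show q + 1 > 0 by omega)
    omega
  have hab : q ≤ a + b := by omega
  have hF : F (q + 1) r = a * (q ^ 2 + q + 1) + 1 + (q + 1) * (b - 1) := by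
    conv_lhs => rw [hs]
    exact F_eq hb1 hb2
  refine nMax_le fun n hn => ?_
  rcases upper hq hn hs hb1 hb2 with h1 | ⟨h1, _⟩
  · rw [hF, F_pos hb1 hab, ← hs]
    omega
  · rw [hF]; exact h1

lemma main_ge {q r : ℕ} (hq : 1 ≤ q) (hr : 1 ≤ r) (hP : PlaneExists q)
    (h : q + 1 ≤ (r - 1) / (q + 1) + (r - 1) % (q + 1) + 2) : F (q + 1) r ≤ nMax (q + 1) r := by
  have hs := split q r hr
  set a := (r - 1) / (q + 1) with ha
  set b := (r - 1) % (q + 1) + 1 with hb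
  have hb1 : 1 ≤ b := by omega
  have hb2 : b ≤ q + 1 := by
    have := Nat.mod_lt (r - 1) (show q + 1 > 0 by omega)
    omega
  have hab : q ≤ a + b := by omega
  rw [hs, F_eq hb1 hb2]
  exact le_nMax (lower hq hP hab hb1 hb2)

lemma main_eq {q r : ℕ} (hq : 1 ≤ q) (hr : 1 ≤ r) (hP : PlaneExists q)
    (h : q + 1 ≤ (r - 1) / (q + 1) + (r - 1) % (q + 1) + 2) : nMax (q + 1) r = F (q + 1) r :=
  le_antisymm (main_le hq hr h) (main_ge hq hr hP h)

lemma main_plane {q r : ℕ} (hq : 1 ≤ q) (hr : 1 ≤ r)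
    (h : q + 1 ≤ (r - 1) / (q + 1) + (r - 1) % (q + 1) + 1)
    (heq : nMax (q + 1) r = F (q + 1) r) : PlaneExists q := by
  have hs := split q r hr
  have hg := good_nMax (q + 1) r
  rw [heq] at hg
  set a := (r - 1) / (q + 1) with ha
  set b := (r - 1) % (q + 1) + 1 with hb
  have hb1 : 1 ≤ b := by omega
  have hb2 : b ≤ q + 1 := by
    have := Nat.mod_lt (r - 1) (show q + 1 > 0 by omega)
    omega
  have hab : q + 1 ≤ a + b := by omega
  have hF : F (q + 1) r = a * (q ^ 2 + q + 1) + 1 + (q + 1) * (b - 1) := by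
    conv_lhs => rw [hs]
    exact F_eq hb1 hb2
  rcases upper hq hg hs hb1 hb2 with h1 | ⟨_, h1⟩
  · exfalso
    rw [hF, F_pos hb1 (by omega), ← hs] at h1
    omega
  · exact h1

lemma range_of_large {q r : ℕ} (hr : q ^ 2 < r) :
    q + 1 ≤ (r - 1) / (q + 1) + (r - 1) % (q + 1) + 1 := by
  have hs := split q r (by omega)
  set a := (r - 1) / (q + 1) with ha
  set b := (r - 1) % (q + 1) + 1 with hb
  by_contra hcon
  have hab : a + b ≤ q := by omega
  have h1 : r ≤ (a + 1) * q := by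
    rw [hs]
    have : a * (q + 1) + b = a * q + (a + b) := by ring
    rw [this]
    have : (a + 1) * q = a * q + q := by ring
    omega
  have h2 : (a + 1) * q ≤ q * q := Nat.mul_le_mul_right _ (by omega)
  have h3 : q ^ 2 = q * q := by ring
  omega

lemma fisher_le {D r : ℕ} (hr : D < r) :
    nMax D r + min (D - 1) (1 + r * (r - D) / (r - D + 1)) ≤ 1 + D * (r - 1) := by
  set g := min (D - 1) (1 + r * (r - D) / (r - D + 1)) with hg
  have h1 : g ≤ D - 1 := min_le_left _ _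
  have h2 : g - 1 ≤ r * (r - D) / (r - D + 1) := by
    have h5 : g ≤ 1 + r * (r - D) / (r - D + 1) := min_le_right _ _
    exact Nat.sub_le_of_le_add (by rw [add_comm]; exact h5)
  have h3 : (g - 1) * (r - D + 1) ≤ r * (r - D) :=
    le_trans (Nat.mul_le_mul_right _ h2) (Nat.div_mul_le_self _ _)
  have h4 := fisher (good_nMax D r) hr h1 h3
  omega

lemma F_one {D b : ℕ} (hb1 : 1 ≤ b) (hb2 : b ≤ D) :
    F D (D + b) = 1 + D * (D + b - 1) - (D - 1) := by
  have h : (D + b - 1) / D = 1 := by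
    rw [Nat.div_eq_iff (by omega)]
    omega
  rw [F, h, mul_one]

lemma le_one {D b : ℕ} (hb1 : 1 ≤ b) (hb2 : b ≤ D) (h : D ≤ (b + 1) ^ 2 + 1) :
    nMax D (D + b) ≤ F D (D + b) := by
  have hD : 1 ≤ D := by omega
  have hc : (D - 1 - 1) * (D + b - D + 1) ≤ (D + b) * (D + b - D) := by
    have h1 : D + b - D = b := by omega
    rw [h1]
    rcases Nat.lt_or_ge D 2 with h2 | h2
    · have : D - 1 - 1 = 0 := by omega
      rw [this]; omega
    · obtain ⟨d, rfl⟩ : ∃ d, D = d + 2 := ⟨D - 2, by omega⟩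
      have h3 : d + 2 - 1 - 1 = d := by omega
      rw [h3]
      nlinarith
  have h4 := fisher (good_nMax D (D + b)) (by omega) le_rfl hc
  rw [F_one hb1 hb2]
  omega

lemma lower_one' {q a : ℕ} (hq : 1 ≤ q) (hP : PlaneExists q) :
    a * (q ^ 2 + q + 1) + 1 ≤ nMax (q + 1) (a * (q + 1) + 1) :=
  le_nMax (lower_one hq hP)

lemma prime_pow_pos {q : ℕ} (h : IsPrimePow q) : 1 ≤ q := h.pos

lemma nMax_one {D : ℕ} : nMax D 1 = F D 1 := by
  refine le_antisymm ?_ ?_
  · refine nMax_le fun n hn => ?_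
    have := good_le hn
    simpa [F] using this
  · have := le_nMax (good_one D)
    simpa [F] using this

lemma nMax_two {D : ℕ} (hD : 2 ≤ D) : nMax D 2 = F D 2 := by
  have h : (2 - 1) / D = 0 := Nat.div_eq_of_lt (by omega)
  have hF : F D 2 = 1 + D := by
    rw [F, h]; omega
  refine le_antisymm ?_ ?_
  · refine nMax_le fun n hn => ?_
    have := good_le hn
    rw [hF]
    omega
  · have := le_nMax (good_two D)
    rw [hF]; omega

lemma arc_value {h i : ℕ} (hh : 1 ≤ h) (hi : i ≤ h) (hc : 2 ^ h ≤ (2 ^ i + 1) ^ 2) :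
    nMax (2 ^ h + 1) (2 ^ h + 1 + 2 ^ i) = F (2 ^ h + 1) (2 ^ h + 1 + 2 ^ i) := by
  have hb1 : 1 ≤ 2 ^ i := Nat.one_le_two_pow
  have hb2 : 2 ^ i ≤ 2 ^ h := Nat.pow_le_pow_right (by norm_num) hi
  refine le_antisymm (le_one hb1 (by omega) (by omega)) ?_
  have h1 := le_nMax (lower_arc hh hi 1)
  have h2 := F_eq (q := 2 ^ h) (a := 1) hb1 (by omega)
  simp only [one_mul] at h1 h2
  rw [h2]
  refine le_trans (le_of_eq ?_) h1
  ring

end Pool.Agent.Helper99.NMax
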