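import Mathlib
import Pool.Agent.Helper99.NMax.Formula

/-!
# MP_530095_co: a bound for `n(D,1,r)`, `r > D`, and cases of equality
-/

namespace Pool.Agent.Results.MP_530095_co.FisherBound

open Pool.Agent.Helper99.NMax

/-- The bound
`n(D,1,r) ≤ 1 + D (r - 1) - min (D - 1, 1 + ⌊r (r - D) / (r - D + 1)⌋)` for all `r > D`, and
equality `n(D,1,r) = 1 + D (r - 1) - (D - 1)` (where the minimum is `D - 1`) for `D = 2 ^ h + 1`,
`r = D + 2 ^ i`, `i ≤ h`, `2 ^ h ≤ (2 ^ i + 1) ^ 2`. -/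
theorem result :
    (∀ D r : ℕ, D < r →
      nMax D r ≤ 1 + D * (r - 1) - min (D - 1) (1 + r * (r - D) / (r - D + 1))) ∧
    (∀ h i : ℕ, 1 ≤ h → i ≤ h → 2 ^ h ≤ (2 ^ i + 1) ^ 2 → ∀ D r : ℕ, D = 2 ^ h + 1 →
      r = D + 2 ^ i → nMax D r = 1 + D * (r - 1) - (D - 1) ∧
        min (D - 1) (1 + r * (r - D) / (r - D + 1)) = D - 1) := by
  refine ⟨fun D r hr => ?_, ?_⟩
  · have := fisher_le hr
    exact Nat.le_sub_of_add_le this
  · rintro h i hh hi hc D r rfl rfl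
    have hb1 : 1 ≤ 2 ^ i := Nat.one_le_two_pow
    have hb2 : 2 ^ i ≤ 2 ^ h := Nat.pow_le_pow_right (by norm_num) hi
    have h2 : 2 ≤ 2 ^ h := by
      calc 2 = 2 ^ 1 := by norm_num
        _ ≤ 2 ^ h := Nat.pow_le_pow_right (by norm_num) hh
    refine ⟨by rw [arc_value hh hi hc, F_one hb1 (by omega)], ?_⟩
    rw [min_eq_left_iff]
    have h3 : 2 ^ h + 1 + 2 ^ i - (2 ^ h + 1) = 2 ^ i := by omega
    have h4 : 2 ^ h - 1 ≤ (2 ^ h + 1 + 2 ^ i) * 2 ^ i / (2 ^ i + 1) := by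
      rw [Nat.le_div_iff_mul_le (by omega)]
      obtain ⟨c, hc'⟩ : ∃ c, 2 ^ h = c + 1 := ⟨2 ^ h - 1, by omega⟩
      rw [hc'] at hc ⊢
      rw [Nat.add_sub_cancel]
      nlinarith
    rw [h3, Nat.add_sub_cancel]
    omega

end Pool.Agent.Results.MP_530095_co.FisherBound
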