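import Mathlib
import Pool.Agent.Helper99.NMax.Formula

/-!
# MP_530095_co: the value of `n(D,1,r)` for `r ≥ (D - 1)^2`
-/

namespace Pool.Agent.Results.MP_530095_co.LargeRank

open Pool.Agent.Helper99.NMax

/-- **Main theorem.** Here `nMax D r` is `n(D,1,r)`, the largest number of vertices of a hypergraph
of diameter one with maximum degree at most `D` and edges of size at most `r`. -/
theorem result (D r : ℕ) (hD : 2 ≤ D) (hr : 1 ≤ r)
    (h : (D - 1) ^ 2 ≤ r ∨ D ≤ (r - 1) / D + (r - 1) % D + 2) :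
    nMax D r ≤ 1 + D * (r - 1) - (D - 1) * ((r - 1) / D) ∧
    (PlaneExists (D - 1) → nMax D r = 1 + D * (r - 1) - (D - 1) * ((r - 1) / D)) ∧
    (IsPrimePow (D - 1) → nMax D r = 1 + D * (r - 1) - (D - 1) * ((r - 1) / D)) ∧
    ((D - 1) ^ 2 < r → nMax D r = 1 + D * (r - 1) - (D - 1) * ((r - 1) / D) →
      PlaneExists (D - 1)) := by
  obtain ⟨q, rfl⟩ : ∃ q, D = q + 1 := ⟨D - 1, by omega⟩
  have hc : q + 1 ≤ (r - 1) / (q + 1) + (r - 1) % (q + 1) + 2 := by
    rcases h with h | h
    · rw [Nat.add_sub_cancel] at h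
      rcases Nat.lt_or_ge (q ^ 2) r with h1 | h1
      · have := range_of_large h1
        omega
      · have hr2 : r = q ^ 2 := le_antisymm h1 h
        obtain ⟨p, rfl⟩ : ∃ p, q = p + 1 := ⟨q - 1, by omega⟩
        have h2 : r - 1 = (p + 1 + 1) * p := by
          rw [hr2]
          have : (p + 1) ^ 2 = (p + 1 + 1) * p + 1 := by ring
          omega
        rw [h2, Nat.mul_div_cancel_left _ (by omega), Nat.mul_mod_right]
    · exact h
  refine ⟨?_, ?_, ?_, ?_⟩
  · exact main_le (by omega) hr hc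
  · intro hP
    exact main_eq (by omega) hr hP hc
  · intro hq
    exact main_eq (by omega) hr (planeExists_primePow hq) hc
  · intro h1 h2
    exact main_plane (by omega) hr (range_of_large h1) h2

end Pool.Agent.Results.MP_530095_co.LargeRank
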